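import Pool.Agent.Helper89.LG2.Zero
import Pool.Agent.Helper1.LG2.Defs

set_option autoImplicit false

/-!
The general theorem in the form of `Helper1.LG2` and the consequences.
-/

open Finset Filter MeasureTheory

namespace Pool.Agent.Helper89.LG2

theorem gt_of (h : Pool.Agent.Helper1.LG2.GT) : GT := by
  classical
  intro m
  obtain ⟨k, hk, h1⟩ := h m
  refine ⟨k, hk, ?_⟩
  intro C η θ hC hη hθ hθ1
  obtain ⟨c, X0, hc, hX0, h2⟩ := h1 C η θ hC hη hθ hθ1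
  refine ⟨c, X0, hc, hX0, ?_⟩
  intro x hx β hβ
  refine (h2 x hx β hβ).trans ?_
  apply sum_le_sum_of_subset_of_nonneg
  · intro n hn
    rw [mem_filter] at hn ⊢
    refine ⟨hn.1, ?_⟩
    obtain ⟨h, s, hinj, hwin, hs, hsp, hall⟩ := hn.2
    refine ⟨h, hinj, hwin, hs.trans ?_, hall⟩
    apply card_le_card
    intro i hi
    rw [mem_filter]
    exact ⟨mem_univ _, hsp i hi⟩
  · intro n _ _
    positivity

/-- Exact counts. -/
theorem exact_of (h : Pool.Agent.Helper1.LG2.GT) (lam : ℝ) (hlam : 0 < lam) (m : ℕ) :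
    ∃ δ : ℝ, 0 < δ ∧ ∀ᶠ N : ℕ in atTop, δ * Real.log N ≤
      ∑ n ∈ (Icc 1 N).filter (fun t => pcount lam t = m), 1 / (n : ℝ) :=
  exact_counts (gt_of h) lam hlam m

/-- Growth points along any filter (e.g. a sequence, an ultrafilter). -/
theorem growth_of (h : Pool.Agent.Helper1.LG2.GT) : ∃ k : ℕ, 0 < k ∧
    ∀ U : Filter ℕ, U.NeBot → U ≤ atTop → IsClosed {c : ℝ | Growth U c} ∧
      (∀ β : Fin k → ℝ, StrictMono β → ∃ i j : Fin k, i < j ∧ Growth U (β j - β i)) ∧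
      (∃ c : ℝ, 0 < c ∧ ∀ x : ℝ, 0 ≤ x → x ≤ c → Growth U x) ∧
      (∀ T : ℝ, ENNReal.ofReal T ≤ 2 * k * volume {c : ℝ | c ∈ Set.Icc 0 T ∧ Growth U c}) ∧
      ∃ (B : Finset ℝ) (R : ℝ), B.card < k ∧ 0 < R ∧ (∀ b ∈ B, 0 ≤ b ∧ b < R) ∧
        (∀ c : ℝ, R ≤ c → ∃ b ∈ B, Growth U (c - b)) ∧
        (∀ t u : ℝ, 0 ≤ t → ENNReal.ofReal (u - (t + R)) ≤
          k * volume {c : ℝ | c ∈ Set.Icc t u ∧ Growth U c}) ∧
        ∀ t a b : ℝ, 0 ≤ t →
          Tendsto (fun N : ℕ => Pool.Agent.Helper30.Gap.F N t) atTop (nhds a) →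
          Tendsto (fun N : ℕ => Pool.Agent.Helper30.Gap.F N (t + R)) atTop (nhds b) → a < b := by
  obtain ⟨k, hk, h1⟩ := some_difference (gt_of h)
  refine ⟨k, hk, ?_⟩
  intro U hUne hU
  have h2 := h1 U hUne hU
  obtain ⟨B, hBk, R, hR0, hB, hc⟩ := cover h2
  refine ⟨growth_closed U, h2, zero_interval h2, leb_bdd h2, B, R + 2, hBk, by linarith,
    fun b hb => ⟨(hB b hb).1, by linarith [(hB b hb).2]⟩,
    fun c hcR => hc c (by linarith), ?_, ?_⟩
  · intro t u ht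
    refine le_trans ?_ (leb hBk hB hc (u := u) ht)
    apply ENNReal.ofReal_le_ofReal
    linarith
  · intro t a b ht ha hb
    obtain ⟨b', hb', hg⟩ := hc (t + R + 1) (by linarith)
    obtain ⟨h2, h3⟩ := hB b' hb'
    exact no_flat hU hg (by linarith) (by linarith) ha hb

end Pool.Agent.Helper89.LG2
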