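import Pool.Agent.Helper89.LG2.Growth

set_option autoImplicit false

/-!
Consequences of `some_difference`: finitely many translates of the set of the growth points cover a
half line; Lebesgue measure; the distribution function.
-/

open Finset Filter MeasureTheory

namespace Pool.Agent.Helper89.LG2

theorem cover {U : Filter ℕ} {k : ℕ} (h : ∀ β : Fin k → ℝ, StrictMono β →
    ∃ i j : Fin k, i < j ∧ Growth U (β j - β i)) :
    ∃ B : Finset ℝ, B.card < k ∧ ∃ R : ℝ, 0 ≤ R ∧ (∀ b ∈ B, 0 ≤ b ∧ b ≤ R) ∧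
      ∀ c : ℝ, R < c → ∃ b ∈ B, Growth U (c - b) := by
  classical
  set Q : ℕ → Prop := fun s => ∃ B : Finset ℝ, B.card = s ∧ (∀ b ∈ B, 0 ≤ b) ∧
    ∀ b ∈ B, ∀ b' ∈ B, b < b' → ¬ Growth U (b' - b) with hQ
  have hnk : ∃ s, ¬ Q s := by
    refine ⟨k, ?_⟩
    rintro ⟨B, hBc, -, hB⟩
    obtain ⟨i, j, hij, hg⟩ := h (fun i => B.orderEmbOfFin hBc i)
      (fun i j hij => (B.orderEmbOfFin hBc).strictMono hij)
    exact hB _ (B.orderEmbOfFin_mem hBc i) _ (B.orderEmbOfFin_mem hBc j)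
      ((B.orderEmbOfFin hBc).strictMono hij) hg
  set s := Nat.find hnk with hs
  have hs1 : ¬ Q s := Nat.find_spec hnk
  have hsk : s ≤ k := by
    apply Nat.find_min' hnk
    rintro ⟨B, hBc, -, hB⟩
    obtain ⟨i, j, hij, hg⟩ := h (fun i => B.orderEmbOfFin hBc i)
      (fun i j hij => (B.orderEmbOfFin hBc).strictMono hij)
    exact hB _ (B.orderEmbOfFin_mem hBc i) _ (B.orderEmbOfFin_mem hBc j)
      ((B.orderEmbOfFin hBc).strictMono hij) hg
  have h0 : Q 0 := ⟨∅, by simp, by simp, by simp⟩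
  have hs0 : s ≠ 0 := by
    intro hc
    rw [hc] at hs1
    exact hs1 h0
  have hprev : Q (s - 1) := by
    by_contra hc
    have := Nat.find_min' hnk hc
    omega
  obtain ⟨B, hBc, hB0, hB⟩ := hprev
  refine ⟨B, by omega, ∑ b ∈ B, b, sum_nonneg hB0, ?_, ?_⟩
  · intro b hb
    exact ⟨hB0 b hb, single_le_sum (f := fun b => b) hB0 hb⟩
  · intro c hc
    by_contra hcon
    push Not at hcon
    have hlt : ∀ b ∈ B, b < c := fun b hb =>
      lt_of_le_of_lt (single_le_sum (f := fun b => b) hB0 hb) hc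
    have hcB : c ∉ B := fun hcB => lt_irrefl _ (hlt c hcB)
    apply hs1
    refine ⟨insert c B, ?_, ?_, ?_⟩
    · rw [card_insert_of_notMem hcB]
      omega
    · intro b hb
      rw [mem_insert] at hb
      rcases hb with rfl | hb
      · exact le_trans (sum_nonneg hB0) hc.le
      · exact hB0 b hb
    · intro b hb b' hb' hbb'
      rw [mem_insert] at hb hb'
      rcases hb with rfl | hb
      · rcases hb' with rfl | hb'
        · exact absurd hbb' (lt_irrefl _)
        · exact absurd hbb' (hlt b' hb').not_gt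
      · rcases hb' with rfl | hb'
        · exact hcon b hb
        · exact hB b hb b' hb' hbb'

/-- All differences in a bounded interval. -/
theorem cover_bdd {U : Filter ℕ} {k : ℕ} (h : ∀ β : Fin k → ℝ, StrictMono β →
    ∃ i j : Fin k, i < j ∧ Growth U (β j - β i)) (T : ℝ) :
    ∃ B : Finset ℝ, B.card < k ∧ (∀ b ∈ B, 0 ≤ b ∧ b ≤ T) ∧
      ∀ c : ℝ, 0 ≤ c → c ≤ T → c ∉ B → ∃ b ∈ B, Growth U |c - b| := by
  classical
  set Q : ℕ → Prop := fun s => ∃ B : Finset ℝ, B.card = s ∧ (∀ b ∈ B, 0 ≤ b ∧ b ≤ T) ∧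
    ∀ b ∈ B, ∀ b' ∈ B, b < b' → ¬ Growth U (b' - b) with hQ
  have hQk : ¬ Q k := by
    rintro ⟨B, hBc, -, hB⟩
    obtain ⟨i, j, hij, hg⟩ := h (fun i => B.orderEmbOfFin hBc i)
      (fun i j hij => (B.orderEmbOfFin hBc).strictMono hij)
    exact hB _ (B.orderEmbOfFin_mem hBc i) _ (B.orderEmbOfFin_mem hBc j)
      ((B.orderEmbOfFin hBc).strictMono hij) hg
  have hnk : ∃ s, ¬ Q s := ⟨k, hQk⟩
  set s := Nat.find hnk with hs
  have hs1 : ¬ Q s := Nat.find_spec hnk
  have hsk : s ≤ k := Nat.find_min' hnk hQk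
  have h0 : Q 0 := ⟨∅, by simp, by simp, by simp⟩
  have hs0 : s ≠ 0 := by
    intro hc
    rw [hc] at hs1
    exact hs1 h0
  have hprev : Q (s - 1) := by
    by_contra hc
    have := Nat.find_min' hnk hc
    omega
  obtain ⟨B, hBc, hB0, hB⟩ := hprev
  refine ⟨B, by omega, hB0, ?_⟩
  intro c hc0 hcT hcB
  by_contra hcon
  push Not at hcon
  apply hs1
  refine ⟨insert c B, ?_, ?_, ?_⟩
  · rw [card_insert_of_notMem hcB]
    omega
  · intro b hb
    rw [mem_insert] at hb
    rcases hb with rfl | hb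
    · exact ⟨hc0, hcT⟩
    · exact hB0 b hb
  · intro b hb b' hb' hbb'
    rw [mem_insert] at hb hb'
    rcases hb with rfl | hb
    · rcases hb' with rfl | hb'
      · exact absurd hbb' (lt_irrefl _)
      · have h1 := hcon b' hb'
        rwa [abs_sub_comm, abs_of_pos (by linarith)] at h1
    · rcases hb' with rfl | hb'
      · have h1 := hcon b hb
        rwa [abs_of_pos (by linarith)] at h1
      · exact hB b hb b' hb' hbb'

/-- Lebesgue measure of the growth points in an initial interval. -/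
theorem leb_bdd {U : Filter ℕ} {k : ℕ} (h : ∀ β : Fin k → ℝ, StrictMono β →
    ∃ i j : Fin k, i < j ∧ Growth U (β j - β i)) (T : ℝ) :
    ENNReal.ofReal T ≤ 2 * k * volume {c : ℝ | c ∈ Set.Icc 0 T ∧ Growth U c} := by
  classical
  rcases lt_or_ge T 0 with hT | hT
  · rw [ENNReal.ofReal_of_nonpos hT.le]
    exact zero_le
  obtain ⟨B, hBk, hB, hc⟩ := cover_bdd h T
  set S := {c : ℝ | c ∈ Set.Icc 0 T ∧ Growth U c} with hS
  have hsub : Set.Ioc 0 T ⊆ (B : Set ℝ) ∪ ⋃ b ∈ B, ((fun c : ℝ => c + (-b)) ⁻¹' S ∪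
      (fun c : ℝ => b - c) ⁻¹' S) := by
    intro c hcc
    by_cases hcB : c ∈ B
    · exact Or.inl hcB
    · right
      obtain ⟨b, hb, hg⟩ := hc c hcc.1.le hcc.2 hcB
      obtain ⟨hb0, hbT⟩ := hB b hb
      rw [Set.mem_iUnion₂]
      refine ⟨b, hb, ?_⟩
      rcases le_total b c with hbc | hbc
      · left
        rw [Set.mem_preimage, hS]
        rw [abs_of_nonneg (by linarith)] at hg
        refine ⟨⟨by linarith, by linarith [hcc.2]⟩, ?_⟩
        rwa [← sub_eq_add_neg]
      · right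
        rw [Set.mem_preimage, hS]
        rw [abs_of_nonpos (by linarith), neg_sub] at hg
        exact ⟨⟨by linarith, by linarith [hcc.1]⟩, hg⟩
  calc ENNReal.ofReal T = volume (Set.Ioc 0 T) := by rw [Real.volume_Ioc, sub_zero]
    _ ≤ volume ((B : Set ℝ) ∪ ⋃ b ∈ B, ((fun c : ℝ => c + (-b)) ⁻¹' S ∪
      (fun c : ℝ => b - c) ⁻¹' S)) := measure_mono hsub
    _ ≤ volume (B : Set ℝ) + volume (⋃ b ∈ B, ((fun c : ℝ => c + (-b)) ⁻¹' S ∪
      (fun c : ℝ => b - c) ⁻¹' S)) := measure_union_le _ _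
    _ = volume (⋃ b ∈ B, ((fun c : ℝ => c + (-b)) ⁻¹' S ∪
      (fun c : ℝ => b - c) ⁻¹' S)) := by
        rw [B.finite_toSet.measure_zero, zero_add]
    _ ≤ ∑ b ∈ B, volume ((fun c : ℝ => c + (-b)) ⁻¹' S ∪
      (fun c : ℝ => b - c) ⁻¹' S) := measure_biUnion_finset_le _ _
    _ ≤ ∑ b ∈ B, 2 * volume S := by
        refine sum_le_sum fun b _ => ?_
        refine (measure_union_le _ _).trans ?_
        rw [measure_preimage_add_right, two_mul]
        refine add_le_add le_rfl (le_of_eq ?_)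
        have e1 : (fun c : ℝ => b - c) ⁻¹' S = Neg.neg ⁻¹' ((fun c : ℝ => c + b) ⁻¹' S) := by
          ext c
          rw [Set.mem_preimage, Set.mem_preimage, Set.mem_preimage, neg_add_eq_sub]
        rw [e1, Measure.measure_preimage_neg, measure_preimage_add_right]
    _ = B.card * (2 * volume S) := by rw [sum_const, nsmul_eq_mul]
    _ ≤ k * (2 * volume S) := by gcongr
    _ = 2 * k * volume S := by ring

/-- Lebesgue measure of the growth points. -/
theorem leb {U : Filter ℕ} {k : ℕ} {B : Finset ℝ} (hBk : B.card < k) {R : ℝ}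
    (hB : ∀ b ∈ B, 0 ≤ b ∧ b ≤ R) (hc : ∀ c : ℝ, R < c → ∃ b ∈ B, Growth U (c - b))
    {t u : ℝ} (ht : 0 ≤ t) :
    ENNReal.ofReal (u - (t + R)) ≤ k * volume {c : ℝ | c ∈ Set.Icc t u ∧ Growth U c} := by
  have hsub : Set.Ioc (t + R) u ⊆ ⋃ b ∈ B, (fun c : ℝ => c + (-b)) ⁻¹'
      {c : ℝ | c ∈ Set.Icc t u ∧ Growth U c} := by
    intro c hcc
    obtain ⟨b, hb, hg⟩ := hc c (by linarith [hcc.1])
    obtain ⟨hb0, hbR⟩ := hB b hb
    rw [Set.mem_iUnion₂]
    refine ⟨b, hb, ?_⟩
    rw [Set.mem_preimage]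
    refine ⟨⟨?_, ?_⟩, ?_⟩
    · linarith [hcc.1]
    · linarith [hcc.2]
    · rwa [← sub_eq_add_neg]
  calc ENNReal.ofReal (u - (t + R)) = volume (Set.Ioc (t + R) u) := by rw [Real.volume_Ioc]
    _ ≤ volume (⋃ b ∈ B, (fun c : ℝ => c + (-b)) ⁻¹'
        {c : ℝ | c ∈ Set.Icc t u ∧ Growth U c}) := measure_mono hsub
    _ ≤ ∑ b ∈ B, volume ((fun c : ℝ => c + (-b)) ⁻¹'
        {c : ℝ | c ∈ Set.Icc t u ∧ Growth U c}) := measure_biUnion_finset_le _ _
    _ = ∑ b ∈ B, volume {c : ℝ | c ∈ Set.Icc t u ∧ Growth U c} := by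
        refine sum_congr rfl fun b _ => ?_
        exact measure_preimage_add_right _ _ _
    _ = B.card * volume {c : ℝ | c ∈ Set.Icc t u ∧ Growth U c} := by
        rw [sum_const, nsmul_eq_mul]
    _ ≤ k * volume {c : ℝ | c ∈ Set.Icc t u ∧ Growth U c} := by
        gcongr

theorem growth_closed (U : Filter ℕ) : IsClosed {c : ℝ | Growth U c} := by
  rw [← closure_subset_iff_isClosed]
  intro c hc ε hε
  obtain ⟨d, hd, hdist⟩ := Metric.mem_closure_iff.mp hc (ε / 2) (by positivity)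
  rw [Real.dist_eq] at hdist
  refine (hd (ε / 2) (by positivity)).mono fun n hn => ?_
  unfold Cl at hn ⊢
  calc |gp n / Real.log n - c| = |(gp n / Real.log n - d) + (d - c)| := by congr 1; ring
    _ ≤ |gp n / Real.log n - d| + |d - c| := abs_add_le _ _
    _ < ε := by
        rw [abs_sub_comm d c]
        linarith

/-- Summation by parts. -/
theorem parts (P : ℕ → Prop) [DecidablePred P] {ε K : ℝ} (hε : 0 ≤ ε)
    (h : ∀ n : ℕ, (((Icc 1 n).filter P).card : ℝ) ≤ ε * n + K) (N : ℕ) :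
    ∑ n ∈ (Icc 1 N).filter P, 1 / (n : ℝ) ≤
      (((Icc 1 N).filter P).card : ℝ) / (N + 1) + ε * (harmonic N : ℝ) +
        K * (1 - 1 / ((N : ℝ) + 1)) := by
  induction N with
  | zero => simp
  | succ N ih =>
    have hIcc : Icc 1 (N + 1) = insert (N + 1) (Icc 1 N) := by
      ext q
      rw [mem_insert, mem_Icc, mem_Icc]
      omega
    have hN0 : (0 : ℝ) < (N : ℝ) + 1 := by positivity
    have hN1 : (0 : ℝ) < (N : ℝ) + 1 + 1 := by positivity
    have hharm : (harmonic (N + 1) : ℝ) = harmonic N + 1 / ((N : ℝ) + 1) := by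
      rw [harmonic_succ]
      push_cast
      rw [one_div]
    have hnot : N + 1 ∉ (Icc 1 N).filter P := by
      rw [mem_filter, mem_Icc]
      omega
    have hb := h N
    have hb' := h (N + 1)
    rw [hharm]
    by_cases hP : P (N + 1)
    · have e1 : (Icc 1 (N + 1)).filter P = insert (N + 1) ((Icc 1 N).filter P) := by
        rw [hIcc, filter_insert, if_pos hP]
      rw [e1] at hb' ⊢
      rw [sum_insert hnot, card_insert_of_notMem hnot] at *
      push_cast at hb' ⊢
      set a := (((Icc 1 N).filter P).card : ℝ) with ha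
      have key : 1 / ((N : ℝ) + 1) + a / (N + 1) ≤ (a + 1) / (N + 1 + 1) +
          ε * (1 / ((N : ℝ) + 1)) + K * (1 / ((N : ℝ) + 1) - 1 / ((N : ℝ) + 1 + 1)) := by
        have e2 : (a + 1) / ((N : ℝ) + 1 + 1) + ε * (1 / ((N : ℝ) + 1)) +
            K * (1 / ((N : ℝ) + 1) - 1 / ((N : ℝ) + 1 + 1)) -
            (1 / ((N : ℝ) + 1) + a / (N + 1)) =
            (ε * ((N : ℝ) + 1 + 1) + K - (a + 1)) / (((N : ℝ) + 1) * ((N : ℝ) + 1 + 1)) := by
          field_simp
          ring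
        have e3 : 0 ≤ (ε * ((N : ℝ) + 1 + 1) + K - (a + 1)) /
            (((N : ℝ) + 1) * ((N : ℝ) + 1 + 1)) := by
          apply div_nonneg _ (by positivity)
          nlinarith
        linarith
      have e4 : K * (1 - 1 / ((N : ℝ) + 1 + 1)) = K * (1 - 1 / ((N : ℝ) + 1)) +
          K * (1 / ((N : ℝ) + 1) - 1 / ((N : ℝ) + 1 + 1)) := by ring
      rw [e4]
      linarith
    · have e1 : (Icc 1 (N + 1)).filter P = (Icc 1 N).filter P := by
        rw [hIcc, filter_insert, if_neg hP]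
      rw [e1] at hb' ⊢
      push_cast at hb' ⊢
      set a := (((Icc 1 N).filter P).card : ℝ) with ha
      have key : a / (N + 1) ≤ a / (N + 1 + 1) +
          ε * (1 / ((N : ℝ) + 1)) + K * (1 / ((N : ℝ) + 1) - 1 / ((N : ℝ) + 1 + 1)) := by
        have e2 : a / ((N : ℝ) + 1 + 1) + ε * (1 / ((N : ℝ) + 1)) +
            K * (1 / ((N : ℝ) + 1) - 1 / ((N : ℝ) + 1 + 1)) - a / (N + 1) =
            (ε * ((N : ℝ) + 1 + 1) + K - a) / (((N : ℝ) + 1) * ((N : ℝ) + 1 + 1)) := by
          field_simp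
          ring
        have e3 : 0 ≤ (ε * ((N : ℝ) + 1 + 1) + K - a) /
            (((N : ℝ) + 1) * ((N : ℝ) + 1 + 1)) := by
          apply div_nonneg _ (by positivity)
          nlinarith
        linarith
      have e4 : K * (1 - 1 / ((N : ℝ) + 1 + 1)) = K * (1 - 1 / ((N : ℝ) + 1)) +
          K * (1 / ((N : ℝ) + 1) - 1 / ((N : ℝ) + 1 + 1)) := by ring
      rw [e4]
      linarith

/-- Zero natural density implies zero logarithmic density. -/
theorem not_upPos {U : Filter ℕ} (hU : U ≤ atTop) {P : ℕ → Prop} [DecidablePred P]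
    (h : Tendsto (fun N : ℕ => (((Icc 1 N).filter P).card : ℝ) / N) atTop (nhds 0)) :
    ¬ UpPos U P := by
  classical
  rintro ⟨δ, hδ, hf⟩
  have hcongr : ∀ N : ℕ, ∑ n ∈ (Icc 1 N).filter P, 1 / (n : ℝ) =
      ∑ n ∈ @Finset.filter ℕ P (Classical.decPred P) (Icc 1 N), 1 / (n : ℝ) := by
    intro N
    congr!
  -- a linear bound
  obtain ⟨n0, hn0⟩ := eventually_atTop.1 (h.eventually_lt_const (show (0 : ℝ) < δ / 2 by positivity))
  have hlin : ∀ n : ℕ, (((Icc 1 n).filter P).card : ℝ) ≤ δ / 2 * n + n0 := by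
    intro n
    rcases Nat.lt_or_ge n n0 with h1 | h1
    · have h2 : ((Icc 1 n).filter P).card ≤ n := by
        have := card_filter_le (Icc 1 n) P
        rwa [Nat.card_Icc, Nat.add_sub_cancel] at this
      have h3 : (((Icc 1 n).filter P).card : ℝ) ≤ n0 := by exact_mod_cast h2.trans h1.le
      have h4 : (0 : ℝ) ≤ δ / 2 * n := by positivity
      linarith
    · rcases Nat.eq_zero_or_pos n with h2 | h2
      · subst h2
        simp
      · have h3 := hn0 n h1
        have h4 : (0 : ℝ) < n := by exact_mod_cast h2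
        rw [div_lt_iff₀ h4] at h3
        have h5 : (0 : ℝ) ≤ n0 := Nat.cast_nonneg _
        linarith
  have hlogN : Tendsto (fun N : ℕ => Real.log N) atTop atTop :=
    Real.tendsto_log_atTop.comp tendsto_natCast_atTop_atTop
  obtain ⟨N, hN, hNbig, hN1⟩ := (hf.and_eventually
    (hU ((hlogN.eventually_gt_atTop (2 / δ * (δ + 2 * n0 + 1))).and
      (eventually_ge_atTop 1)))).exists
  rw [← hcongr] at hN
  have h1 := parts P (ε := δ / 2) (K := n0) (by positivity) hlin N
  have h2 := harmonic_le_one_add_log N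
  have hN0 : (0 : ℝ) < N := by exact_mod_cast hN1
  have h3 : (((Icc 1 N).filter P).card : ℝ) / (N + 1) ≤ δ / 2 + n0 := by
    rw [div_le_iff₀ (by positivity)]
    have := hlin N
    have h4 : (0 : ℝ) ≤ n0 * N := by positivity
    nlinarith
  have h4 : (n0 : ℝ) * (1 - 1 / ((N : ℝ) + 1)) ≤ n0 := by
    have h5 : (0 : ℝ) ≤ n0 := Nat.cast_nonneg _
    have h6 : (0 : ℝ) ≤ 1 / ((N : ℝ) + 1) := by positivity
    nlinarith
  have h5 : δ / 2 * (harmonic N : ℝ) ≤ δ / 2 * (1 + Real.log N) :=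
    mul_le_mul_of_nonneg_left h2 (by positivity)
  have h6 : δ / 2 * Real.log N ≤ δ + 2 * n0 := by linarith
  have h7 : 2 / δ * (δ / 2 * Real.log N) = Real.log N := by field_simp
  have h8 : 2 / δ * (δ / 2 * Real.log N) ≤ 2 / δ * (δ + 2 * n0) :=
    mul_le_mul_of_nonneg_left h6 (by positivity)
  have h9 : 2 / δ * (δ + 2 * n0) ≤ 2 / δ * (δ + 2 * n0 + 1) :=
    mul_le_mul_of_nonneg_left (by linarith) (by positivity)
  linarith

/-- No flat piece around a growth point. -/
theorem no_flat {U : Filter ℕ} (hU : U ≤ atTop) {c t u a b : ℝ} (hg : Growth U c) (htc : t < c) (hcu : c < u)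
    (ha : Tendsto (fun N : ℕ => Pool.Agent.Helper30.Gap.F N t) atTop (nhds a))
    (hb : Tendsto (fun N : ℕ => Pool.Agent.Helper30.Gap.F N u) atTop (nhds b)) : a < b := by
  classical
  have hab : a ≤ b := le_of_tendsto_of_tendsto' ha hb fun N =>
    Pool.Agent.Helper30.Gap.F_mono N (htc.trans hcu).le
  refine lt_of_le_of_ne hab fun hc => ?_
  have h1 : Tendsto (fun N : ℕ => Pool.Agent.Helper30.Gap.F N u -
      Pool.Agent.Helper30.Gap.F N t) atTop (nhds 0) := by
    have := hb.sub ha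
    rwa [hc, sub_self] at this
  have h2 : Tendsto (fun N : ℕ => (((Icc 1 N).filter (fun n : ℕ =>
      t ≤ Pool.Agent.Helper30.Gap.gap n / Real.log n ∧
        Pool.Agent.Helper30.Gap.gap n / Real.log n < u)).card : ℝ) / N) atTop (nhds 0) := by
    refine h1.congr fun N => ?_
    exact Pool.Agent.Helper30.Gap.F_sub N (htc.trans hcu).le
  refine not_upPos hU h2 ((hg (min (c - t) (u - c)) (lt_min (by linarith) (by linarith))).mono
    fun n hn => ?_)
  unfold Cl at hn
  have h3 : gp n = Pool.Agent.Helper30.Gap.gap n := rfl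
  rw [h3, abs_lt] at hn
  have h4 := min_le_left (c - t) (u - c)
  have h5 := min_le_right (c - t) (u - c)
  constructor <;> linarith

end Pool.Agent.Helper89.LG2
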