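import Mathlib

set_option autoImplicit false

/-!
Statement of the general theorem GT (helper1) and of its consequences.
-/

namespace Pool.Agent.Helper89.LG2

def Hit (k m : ℕ) (R len : ℝ) (lo : Fin k → ℝ) (n : ℕ) : Prop :=
  ∃ h : Fin k → ℤ, Function.Injective h ∧ (∀ i, lo i ≤ h i ∧ (h i : ℝ) ≤ lo i + len) ∧
    m ≤ (Finset.univ.filter (fun i => ((n : ℤ) + h i).natAbs.Prime)).card ∧
    ∀ h' : ℤ, |(h' : ℝ)| ≤ R → ((n : ℤ) + h').natAbs.Prime → ∃ i, h' = h i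

open Classical in
def GT : Prop := ∀ m : ℕ, ∃ k : ℕ, 0 < k ∧ ∀ (C η θ : ℝ), 0 < C → 0 < η → 1 / 2 < θ → θ < 1 →
  ∃ c X0 : ℝ, 0 < c ∧ 3 ≤ X0 ∧ ∀ x : ℝ, X0 ≤ x → ∀ β : Fin k → ℝ,
    (∀ i, -C ≤ β i ∧ β i + η ≤ C) →
    c * Real.log x ≤ ∑ n ∈ (Finset.Ioc ⌊x ^ θ⌋₊ ⌊x⌋₊).filter
      (Hit k m (C * Real.log x) (η * Real.log x) (fun i => β i * Real.log x)), 1 / (n : ℝ)

/-- The number of primes `q` with `t < q ≤ t + lam * log t`. -/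
noncomputable def pcount (lam : ℝ) (t : ℕ) : ℕ :=
  ((Finset.Ioc t ⌊(t : ℝ) + lam * Real.log t⌋₊).filter Nat.Prime).card

end Pool.Agent.Helper89.LG2
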