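import Pool.Agent.Helper89.LG2.Slide

set_option autoImplicit false

/-!
Exact counts: for every `lam > 0` and `m` the set of the `n` with exactly `m` primes in
`(n, n + lam log n]` has positive lower logarithmic density (from GT).
-/

open Finset Filter

namespace Pool.Agent.Helper89.LG2

/-- Double counting. -/
theorem double_count {N f : ℕ} (G : Finset ℕ) (hG : ∀ n ∈ G, f + 1 ≤ n ∧ n ≤ N)
    (P : ℕ → Prop) [DecidablePred P] {s : ℝ}
    (hs : ∀ n ∈ G, s ≤ (((Icc (n - f) (n - 1)).filter P).card : ℝ)) :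
    s * ∑ n ∈ G, 1 / (n : ℝ) ≤ f * ∑ t ∈ (Icc 1 N).filter P, 1 / (t : ℝ) := by
  classical
  calc s * ∑ n ∈ G, 1 / (n : ℝ) = ∑ n ∈ G, s * (1 / (n : ℝ)) := by rw [mul_sum]
    _ ≤ ∑ n ∈ G, (((Icc (n - f) (n - 1)).filter P).card : ℝ) * (1 / (n : ℝ)) :=
        sum_le_sum fun n hn => mul_le_mul_of_nonneg_right (hs n hn) (by positivity)
    _ = ∑ n ∈ G, ∑ t ∈ (Icc (n - f) (n - 1)).filter P, 1 / (n : ℝ) := by
        refine sum_congr rfl fun n _ => ?_
        rw [sum_const, nsmul_eq_mul]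
    _ ≤ ∑ n ∈ G, ∑ t ∈ (Icc 1 N).filter P, if n - f ≤ t ∧ t ≤ n - 1 then 1 / (n : ℝ) else 0 := by
        refine sum_le_sum fun n hn => ?_
        rw [← sum_filter]
        apply sum_le_sum_of_subset_of_nonneg
        · intro t ht
          obtain ⟨h1, h2⟩ := hG n hn
          rw [mem_filter, mem_Icc] at ht
          rw [mem_filter, mem_filter, mem_Icc]
          exact ⟨⟨⟨by omega, by omega⟩, ht.2⟩, ht.1.1, ht.1.2⟩
        · intro t _ _
          positivity
    _ = ∑ t ∈ (Icc 1 N).filter P, ∑ n ∈ G, if n - f ≤ t ∧ t ≤ n - 1 then 1 / (n : ℝ) else 0 :=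
        sum_comm
    _ ≤ ∑ t ∈ (Icc 1 N).filter P, f * (1 / (t : ℝ)) := by
        refine sum_le_sum fun t ht => ?_
        rw [mem_filter, mem_Icc] at ht
        have ht0 : (0 : ℝ) < t := by exact_mod_cast ht.1.1
        rw [← sum_filter]
        calc ∑ n ∈ G.filter (fun n => n - f ≤ t ∧ t ≤ n - 1), 1 / (n : ℝ)
            ≤ ∑ n ∈ G.filter (fun n => n - f ≤ t ∧ t ≤ n - 1), 1 / (t : ℝ) := by
              refine sum_le_sum fun n hn => ?_
              rw [mem_filter] at hn
              obtain ⟨h1, h2⟩ := hG n hn.1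
              apply one_div_le_one_div_of_le ht0
              have : t ≤ n := by omega
              exact_mod_cast this
          _ = ((G.filter (fun n => n - f ≤ t ∧ t ≤ n - 1)).card : ℝ) * (1 / (t : ℝ)) := by
              rw [sum_const, nsmul_eq_mul]
          _ ≤ f * (1 / (t : ℝ)) := by
              apply mul_le_mul_of_nonneg_right _ (by positivity)
              have : (G.filter (fun n => n - f ≤ t ∧ t ≤ n - 1)).card ≤ (Ioc t (t + f)).card := by
                apply card_le_card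
                intro n hn
                rw [mem_filter] at hn
                obtain ⟨h1, h2⟩ := hG n hn.1
                rw [mem_Ioc]
                omega
              rw [Nat.card_Ioc] at this
              have h3 : t + f - t = f := by omega
              rw [h3] at this
              exact_mod_cast this
    _ = f * ∑ t ∈ (Icc 1 N).filter P, 1 / (t : ℝ) := by rw [mul_sum]

/-- Members of the range `(x ^ θ, x]`. -/
theorem mem_range_log {N : ℕ} (hN : 1 ≤ N) {θ : ℝ} {n : ℕ}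
    (hn : n ∈ Ioc ⌊(N : ℝ) ^ θ⌋₊ ⌊(N : ℝ)⌋₊) :
    n ≤ N ∧ 1 ≤ n ∧ θ * Real.log N ≤ Real.log n ∧ Real.log n ≤ Real.log N := by
  rw [mem_Ioc] at hn
  have hN0 : (0 : ℝ) < N := by exact_mod_cast hN
  have h1 : n ≤ N := by simpa using hn.2
  have h2 : (N : ℝ) ^ θ < n := (Nat.floor_lt (by positivity)).1 hn.1
  have h3 : 0 < (N : ℝ) ^ θ := by positivity
  have h4 : (0 : ℝ) < n := h3.trans h2
  refine ⟨h1, by exact_mod_cast h4, ?_, Real.log_le_log h4 (by exact_mod_cast h1)⟩
  rw [← Real.log_rpow hN0]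
  exact Real.log_le_log h3 h2.le

theorem exact_counts (h : GT) (lam : ℝ) (hlam : 0 < lam) (m : ℕ) : ∃ δ : ℝ, 0 < δ ∧
    ∀ᶠ N : ℕ in atTop, δ * Real.log N ≤
      ∑ n ∈ (Icc 1 N).filter (fun t => pcount lam t = m), 1 / (n : ℝ) := by
  classical
  obtain ⟨k, hk, hGT⟩ := h m
  have hk1 : (1 : ℝ) ≤ k := by exact_mod_cast hk
  set η : ℝ := min lam 1 / (16 * k) with hη
  have hmin : 0 < min lam 1 := lt_min hlam one_pos
  have hη0 : 0 < η := by positivity
  have hη1 : 16 * k * η ≤ lam := by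
    rw [hη, mul_div_cancel₀ _ (by positivity)]
    exact min_le_left _ _
  have hη2 : η ≤ 1 / 16 := by
    have h1 : 16 * k * η ≤ 1 := by
      rw [hη, mul_div_cancel₀ _ (by positivity)]
      exact min_le_right _ _
    nlinarith
  obtain ⟨c, X0, hc, hX0, hx⟩ := hGT (lam + 1) η (3 / 4) (by positivity) hη0 (by norm_num)
    (by norm_num)
  refine ⟨c * η / (4 * (lam + 1)), by positivity, ?_⟩
  have hlogN : Tendsto (fun N : ℕ => Real.log N) atTop atTop :=
    Real.tendsto_log_atTop.comp tendsto_natCast_atTop_atTop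
  filter_upwards [tendsto_natCast_atTop_atTop.eventually_ge_atTop X0,
    hlogN.eventually_ge_atTop 8, hlogN.eventually_ge_atTop (16 / lam),
    hlogN.eventually_ge_atTop (6 / η), hlogN.eventually_ge_atTop (8 * (lam + 2)),
    eventually_ge_atTop 1] with N hNX hL8 hL16 hL6 hL7 hN1
  set L := Real.log N with hL
  have hLpos : 0 < L := by linarith
  have hL16' : 16 ≤ lam * L := by
    rw [div_le_iff₀ hlam] at hL16
    linarith
  have hL6' : 6 ≤ η * L := by
    rw [div_le_iff₀ hη0] at hL6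
    linarith
  have hmain := hx N hNX (fun i => 2 * ((i : ℕ) : ℝ) * η) (by
    intro i
    have h2 : ((i : ℕ) : ℝ) + 1 ≤ k := by
      have := i.2
      exact_mod_cast this
    have h3 : (0 : ℝ) ≤ 2 * ((i : ℕ) : ℝ) * η := by positivity
    refine ⟨by linarith, ?_⟩
    nlinarith)
  set G := (Ioc ⌊(N : ℝ) ^ (3 / 4 : ℝ)⌋₊ ⌊(N : ℝ)⌋₊).filter
    (Hit k m ((lam + 1) * Real.log N) (η * Real.log N)
      (fun i => 2 * ((i : ℕ) : ℝ) * η * Real.log N)) with hG
  have hC : 0 ≤ (lam + 1) * L := by positivity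
  have hfC : (⌊(lam + 1) * L⌋₊ : ℝ) ≤ (lam + 1) * L := Nat.floor_le hC
  have hbig : ∀ n ∈ G, (lam + 1) * L + lam + 2 ≤ n ∧ Real.log n ≤ L ∧
      5 / 8 * L ≤ Real.log ((n - 1 : ℕ) : ℝ) := by
    intro n hn
    rw [hG, mem_filter] at hn
    obtain ⟨h1, h2, h3, h4⟩ := mem_range_log hN1 hn.1
    have hn0 : (0 : ℝ) < n := by exact_mod_cast h2
    have hexp : Real.exp (3 / 4 * L) ≤ n := by
      rw [← Real.exp_log hn0]
      exact Real.exp_le_exp.2 h3
    have hq : 9 / 32 * L ^ 2 ≤ Real.exp (3 / 4 * L) := by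
      have := Real.quadratic_le_exp_of_nonneg (x := 3 / 4 * L) (by positivity)
      nlinarith
    have hbig1 : (lam + 1) * L + lam + 2 ≤ n := by nlinarith
    refine ⟨hbig1, h4, ?_⟩
    have hn2 : (2 : ℝ) ≤ n := by nlinarith
    have hcast : (((n - 1 : ℕ) : ℝ)) = n - 1 := by
      rw [Nat.cast_sub h2]
      simp
    rw [hcast]
    have h5 : Real.log n - Real.log 2 ≤ Real.log (n - 1) := by
      rw [← Real.log_div (by positivity) (by norm_num)]
      apply Real.log_le_log (by positivity)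
      linarith
    have h6 : Real.log 2 ≤ 1 := by
      have := Real.log_two_lt_d9
      linarith
    nlinarith
  have hcount := double_count (N := N) (f := ⌊(lam + 1) * L⌋₊) G (by
    intro n hn
    obtain ⟨h1, h2, h3⟩ := hbig n hn
    rw [hG, mem_filter] at hn
    obtain ⟨h4, h5, -, -⟩ := mem_range_log hN1 hn.1
    refine ⟨?_, h4⟩
    have : (⌊(lam + 1) * L⌋₊ : ℝ) + 1 ≤ n := by linarith
    exact_mod_cast this) (fun t => pcount lam t = m) (s := (η * L - 3) / 2) (by
    intro n hn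
    obtain ⟨h1, h2, h3⟩ := hbig n hn
    rw [hG, mem_filter] at hn
    exact slide hlam hη0 hη1 hk hη2 hL8 hL16' h1 h2 h3 hn.2)
  set T := ∑ n ∈ (Icc 1 N).filter (fun t => pcount lam t = m), 1 / (n : ℝ) with hT
  have hT0 : 0 ≤ T := Finset.sum_nonneg fun _ _ => by positivity
  have h1 : η * L / 4 * (c * L) ≤ (lam + 1) * L * T := by
    calc η * L / 4 * (c * L) ≤ (η * L - 3) / 2 * (c * L) :=
          mul_le_mul_of_nonneg_right (by linarith) (by positivity)
      _ ≤ (η * L - 3) / 2 * ∑ n ∈ G, 1 / (n : ℝ) :=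
          mul_le_mul_of_nonneg_left hmain (by linarith)
      _ ≤ ⌊(lam + 1) * L⌋₊ * T := hcount
      _ ≤ (lam + 1) * L * T := mul_le_mul_of_nonneg_right hfC hT0
  have h2 : η * c * L / 4 ≤ (lam + 1) * T := by
    have h3 : L * (η * c * L / 4) ≤ L * ((lam + 1) * T) := by linarith
    exact le_of_mul_le_mul_left h3 hLpos
  rw [div_mul_eq_mul_div, div_le_iff₀ (by positivity)]
  linarith

end Pool.Agent.Helper89.LG2
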