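import Pool.Agent.Helper89.LG2.Bridge

set_option autoImplicit false

/-!
Exact counts in the final form, from the general theorem.
-/

open Finset Filter

namespace Pool.Agent.Helper89.LG2

theorem final_exact (h : Pool.Agent.Helper1.LG2.GT) :
    ∀ (lam : ℝ) (m : ℕ), 0 < lam → ∃ δ : ℝ, 0 < δ ∧ ∃ N0 : ℕ, ∀ N : ℕ, N0 ≤ N →
      δ * Real.log N ≤ ∑ n ∈ (Icc 1 N).filter (fun n =>
        ((Ioc n ⌊(n : ℝ) + lam * Real.log n⌋₊).filter Nat.Prime).card = m), 1 / (n : ℝ) := by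
  intro lam m hlam
  obtain ⟨δ, hδ, hev⟩ := exact_of h lam hlam m
  obtain ⟨N0, hN0⟩ := eventually_atTop.1 hev
  exact ⟨δ, hδ, N0, fun N hN => hN0 N hN⟩

end Pool.Agent.Helper89.LG2
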