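import Pool.Agent.Helper89.LG2.Bridge

set_option autoImplicit false

/-!
Growth points in the final form (along sequences), from the general theorem.
-/

open Finset Filter MeasureTheory

namespace Pool.Agent.Helper89.LG2

/-- `c` is a growth point along the sequence `s`. -/
def GP (s : ℕ → ℕ) (c : ℝ) : Prop :=
  ∀ ε : ℝ, 0 < ε → ∃ δ : ℝ, 0 < δ ∧ ∃ᶠ j : ℕ in atTop, δ * Real.log (s j) ≤
    ∑ n ∈ (Icc 1 (s j)).filter (fun n =>
      |((Nat.nth Nat.Prime n : ℝ) - (Nat.nth Nat.Prime (n - 1) : ℝ)) / Real.log n - c| < ε),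
      1 / (n : ℝ)

theorem gp_iff (s : ℕ → ℕ) (c : ℝ) : Growth (map s atTop) c ↔ GP s c := by
  classical
  unfold Growth GP UpPos
  refine forall_congr' fun ε => forall_congr' fun _ => exists_congr fun δ =>
    and_congr_right fun _ => ?_
  rw [Filter.frequently_map]
  refine Filter.frequently_congr (Eventually.of_forall fun j => ?_)
  have h : ∀ n : ℕ, Cl c ε n ↔
      |((Nat.nth Nat.Prime n : ℝ) - (Nat.nth Nat.Prime (n - 1) : ℝ)) / Real.log n - c| < ε := by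
    intro n
    unfold Cl gp
    exact Iff.rfl
  constructor
  · intro h3
    refine h3.trans (le_of_eq ?_)
    refine sum_congr ?_ fun _ _ => rfl
    ext n
    simp only [mem_filter, h n]
  · intro h3
    refine h3.trans (le_of_eq ?_)
    refine sum_congr ?_ fun _ _ => rfl
    ext n
    simp only [mem_filter, h n]

theorem final_growth (h : Pool.Agent.Helper1.LG2.GT) : ∃ k : ℕ, 0 < k ∧
    ∀ s : ℕ → ℕ, StrictMono s →
      (∃ c : ℝ, 0 < c ∧ ∀ x : ℝ, 0 ≤ x → x ≤ c → GP s x) ∧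
      ∃ R : ℝ, 0 < R ∧ ∀ t x : ℝ, 0 ≤ t → 0 ≤ x →
        ENNReal.ofReal (x / k) ≤ volume {c : ℝ | t ≤ c ∧ c ≤ t + R + x ∧ GP s c} := by
  obtain ⟨k, hk, h1⟩ := growth_of h
  refine ⟨k, hk, ?_⟩
  intro s hs
  obtain ⟨-, -, ⟨c, hc0, hc⟩, -, B, R, -, hR, -, -, hleb, -⟩ := h1 (map s atTop) inferInstance
    hs.tendsto_atTop
  refine ⟨⟨c, hc0, fun x hx hxc => (gp_iff s x).1 (hc x hx hxc)⟩, R, hR, ?_⟩
  intro t x ht hx
  have h2 := hleb t (t + R + x) ht
  have h3 : {c : ℝ | c ∈ Set.Icc t (t + R + x) ∧ Growth (map s atTop) c} =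
      {c : ℝ | t ≤ c ∧ c ≤ t + R + x ∧ GP s c} := by
    ext c
    simp only [Set.mem_ofPred_eq, Set.mem_Icc, gp_iff, and_assoc]
  rw [h3] at h2
  have h4 : ENNReal.ofReal (t + R + x - (t + R)) = ENNReal.ofReal x := by
    congr 1
    ring
  rw [h4] at h2
  have hk' : (0 : ℝ) < k := by exact_mod_cast hk
  rw [ENNReal.ofReal_div_of_pos hk', ENNReal.ofReal_natCast]
  exact ENNReal.div_le_of_le_mul' h2

end Pool.Agent.Helper89.LG2
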