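import Pool.Agent.Helper89.LG2.Near

set_option autoImplicit false

/-!
Growth points of the distribution of the normalised gaps: among any `k` reals two have a
difference that is a growth point.
-/

open Finset Filter

namespace Pool.Agent.Helper89.LG2

open Classical in
/-- Positive upper logarithmic density along the filter `U`. -/
def UpPos (U : Filter ℕ) (P : ℕ → Prop) : Prop :=
  ∃ δ : ℝ, 0 < δ ∧ ∃ᶠ N : ℕ in U, δ * Real.log N ≤ ∑ n ∈ (Icc 1 N).filter P, 1 / (n : ℝ)

/-- The normalised gap with index `n` is close to `c`. -/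
def Cl (c ε : ℝ) (n : ℕ) : Prop := |gp n / Real.log n - c| < ε

/-- Growth points along the filter `U`. -/
def Growth (U : Filter ℕ) (c : ℝ) : Prop := ∀ ε : ℝ, 0 < ε → UpPos U (Cl c ε)

theorem UpPos.mono {U : Filter ℕ} {P Q : ℕ → Prop} (h : UpPos U P) (hPQ : ∀ n, P n → Q n) :
    UpPos U Q := by
  classical
  obtain ⟨δ, hδ, hf⟩ := h
  refine ⟨δ, hδ, hf.mono fun N hN => hN.trans ?_⟩
  apply sum_le_sum_of_subset_of_nonneg
  · intro n hn
    rw [mem_filter] at hn ⊢
    exact ⟨hn.1, hPQ n hn.2⟩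
  · intro n _ _
    positivity

theorem sum_biUnion_le {ι : Type} [DecidableEq ι] (s : Finset ι) (t : ι → Finset ℕ) (f : ℕ → ℝ)
    (hf : ∀ n, 0 ≤ f n) : ∑ n ∈ s.biUnion t, f n ≤ ∑ i ∈ s, ∑ n ∈ t i, f n := by
  induction s using Finset.induction_on with
  | empty => simp
  | insert a s ha ih =>
    rw [biUnion_insert, sum_insert ha]
    have h1 := sum_union_inter (s₁ := t a) (s₂ := s.biUnion t) (f := f)
    have h2 : 0 ≤ ∑ n ∈ t a ∩ s.biUnion t, f n := sum_nonneg fun n _ => hf n
    linarith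

/-- Double counting for the indices. -/
theorem count_idx {C L K : ℝ} (hCL : 0 ≤ C * L) (G : Finset ℕ) (T : Finset ℕ)
    (f : ℕ → ℕ) (hf : ∀ n ∈ G, f n ∈ T ∧ |(pr1 (f n) : ℝ) - n| ≤ C * L ∧
      1 / (n : ℝ) ≤ K * (1 / (f n : ℝ))) (hK : 0 ≤ K) :
    ∑ n ∈ G, 1 / (n : ℝ) ≤ (2 * (C * L) + 1) * K * ∑ ν ∈ T, 1 / (ν : ℝ) := by
  classical
  have h1 : ∑ n ∈ G, 1 / (n : ℝ) = ∑ ν ∈ T, ∑ n ∈ G.filter (fun n => f n = ν), 1 / (n : ℝ) :=
    (sum_fiberwise_of_maps_to (fun n hn => (hf n hn).1) _).symm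
  rw [h1, mul_sum]
  refine sum_le_sum fun ν _ => ?_
  calc ∑ n ∈ G.filter (fun n => f n = ν), 1 / (n : ℝ)
      ≤ ∑ n ∈ G.filter (fun n => f n = ν), K * (1 / (ν : ℝ)) := by
        refine sum_le_sum fun n hn => ?_
        rw [mem_filter] at hn
        have := (hf n hn.1).2.2
        rwa [hn.2] at this
    _ = ((G.filter (fun n => f n = ν)).card : ℝ) * (K * (1 / (ν : ℝ))) := by
        rw [sum_const, nsmul_eq_mul]
    _ ≤ (2 * (C * L) + 1) * (K * (1 / (ν : ℝ))) := by
        apply mul_le_mul_of_nonneg_right _ (by positivity)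
        have hsub : G.filter (fun n => f n = ν) ⊆
            Icc (pr1 ν - ⌊C * L⌋₊) (pr1 ν + ⌊C * L⌋₊) := by
          intro n hn
          rw [mem_filter] at hn
          have h2 := (hf n hn.1).2.1
          rw [hn.2, abs_le] at h2
          rw [mem_Icc]
          constructor
          · have h3 : ((pr1 ν : ℕ) : ℝ) ≤ n + C * L := by linarith
            rcases Nat.lt_or_ge (pr1 ν) n with h4 | h4
            · omega
            · have h5 : ((pr1 ν - n : ℕ) : ℝ) ≤ C * L := by
                rw [Nat.cast_sub h4]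
                linarith
              have h6 : pr1 ν - n ≤ ⌊C * L⌋₊ := (Nat.le_floor_iff hCL).2 h5
              omega
          · rcases Nat.lt_or_ge n (pr1 ν) with h4 | h4
            · omega
            · have h5 : ((n - pr1 ν : ℕ) : ℝ) ≤ C * L := by
                rw [Nat.cast_sub h4]
                linarith
              have h6 : n - pr1 ν ≤ ⌊C * L⌋₊ := (Nat.le_floor_iff hCL).2 h5
              omega
        have h7 := card_le_card hsub
        rw [Nat.card_Icc] at h7
        have h8 : (G.filter (fun n => f n = ν)).card ≤ 2 * ⌊C * L⌋₊ + 1 := by omega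
        have h9 : ((G.filter (fun n => f n = ν)).card : ℝ) ≤ 2 * (⌊C * L⌋₊ : ℝ) + 1 := by
          exact_mod_cast h8
        have h10 := Nat.floor_le hCL
        linarith
    _ = _ := by ring

/-- Common `ε` for finitely many numbers that are not growth points. -/
theorem common_eps {U : Filter ℕ} {ι : Type} [Fintype ι] (c : ι → ℝ)
    (h : ∀ i, ¬ Growth U (c i)) :
    ∃ ε : ℝ, 0 < ε ∧ ∀ i, ¬ UpPos U (Cl (c i) ε) := by
  classical
  have h1 : ∀ i, ∃ ε : ℝ, 0 < ε ∧ ¬ UpPos U (Cl (c i) ε) := by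
    intro i
    have := h i
    unfold Growth at this
    push Not at this
    exact this
  choose e he1 he2 using h1
  rcases isEmpty_or_nonempty ι with hι | hι
  · exact ⟨1, one_pos, fun i => (IsEmpty.false i).elim⟩
  · refine ⟨univ.inf' univ_nonempty e, ?_, ?_⟩
    · rw [lt_inf'_iff]
      exact fun i _ => he1 i
    · intro i hc
      apply he2 i
      refine hc.mono fun n hn => ?_
      unfold Cl at hn ⊢
      exact lt_of_lt_of_le hn (inf'_le _ (mem_univ i))

theorem some_difference (h : GT) : ∃ k : ℕ, 0 < k ∧ ∀ U : Filter ℕ, U.NeBot → U ≤ atTop →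
    ∀ β : Fin k → ℝ, StrictMono β → ∃ i j : Fin k, i < j ∧ Growth U (β j - β i) := by
  classical
  obtain ⟨k, hk, hGT⟩ := h 2
  refine ⟨k, hk, ?_⟩
  intro U hUne hU β hβ
  by_contra hcon
  push Not at hcon
  -- the pairs
  obtain ⟨ε0, hε0, hε1⟩ := common_eps
    (fun q : {q : Fin k × Fin k // q.1 < q.2} => β q.1.2 - β q.1.1)
    (fun q => hcon q.1.1 q.1.2 q.2)
  -- the spacing
  obtain ⟨s, hs0, hs1⟩ : ∃ s : ℝ, 0 < s ∧ ∀ i j : Fin k, i < j → β i + s < β j := by
    rcases isEmpty_or_nonempty {q : Fin k × Fin k // q.1 < q.2} with hι | hι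
    · exact ⟨1, one_pos, fun i j hij => (IsEmpty.false (⟨(i, j), hij⟩ :
        {q : Fin k × Fin k // q.1 < q.2})).elim⟩
    · set s0 := univ.inf' univ_nonempty
        (fun q : {q : Fin k × Fin k // q.1 < q.2} => β q.1.2 - β q.1.1) with hs0
      have h1 : 0 < s0 := by
        rw [hs0, lt_inf'_iff]
        intro q _
        exact sub_pos.2 (hβ q.2)
      refine ⟨s0 / 2, by positivity, ?_⟩
      intro i j hij
      have h2 : s0 ≤ β j - β i := inf'_le (fun q : {q : Fin k × Fin k // q.1 < q.2} =>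
        β q.1.2 - β q.1.1) (mem_univ ⟨(i, j), hij⟩)
      linarith
  set ε := min ε0 1 with hε
  have hεpos : 0 < ε := lt_min hε0 one_pos
  have hε1 : ∀ q : {q : Fin k × Fin k // q.1 < q.2},
      ¬ UpPos U (Cl (β q.1.2 - β q.1.1) ε) := by
    intro q hc
    apply hε1 q
    refine hc.mono fun n hn => ?_
    unfold Cl at hn ⊢
    exact lt_of_lt_of_le hn (min_le_left _ _)
  set η := min s (ε / 4) with hη
  have hη0 : 0 < η := lt_min hs0 (by positivity)
  have hη1 : η ≤ ε / 4 := min_le_right _ _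
  -- the size
  obtain ⟨C, hC0, hC1⟩ : ∃ C : ℝ, 1 ≤ C ∧ ∀ i, -C ≤ β i ∧ β i + η ≤ C := by
    refine ⟨1 + η + ∑ i, |β i|, ?_, ?_⟩
    · have : 0 ≤ ∑ i, |β i| := sum_nonneg fun i _ => abs_nonneg _
      linarith
    · intro i
      have h1 : |β i| ≤ ∑ i, |β i| := single_le_sum (fun i _ => abs_nonneg (β i)) (mem_univ i)
      have h2 := neg_abs_le (β i)
      have h3 := le_abs_self (β i)
      constructor <;> linarith
  have hd : ∀ i j : Fin k, β j - β i ≤ 2 * C := by
    intro i j
    have h1 := (hC1 i).1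
    have h2 := (hC1 j).2
    linarith
  -- `t` close to `1`
  set t := (2 * C + 1) / (2 * C + 1 + ε / 4) with ht
  have ht1 : t < 1 := by
    rw [ht, div_lt_one (by positivity)]
    linarith
  have ht2 : 1 / 2 < t := by
    rw [ht, div_lt_div_iff₀ (by norm_num) (by positivity)]
    have : ε ≤ 1 := min_le_right _ _
    linarith
  obtain ⟨c, X0, hc, hX0, hx⟩ := hGT C η ((1 + t) / 2) (by linarith) hη0 (by linarith)
    (by linarith)
  -- the contradiction
  set M : ℝ := (2 * C + 1) * 8 with hM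
  have hMpos : 0 < M := by positivity
  have hsmall : ∀ᶠ N : ℕ in U, ∀ q : {q : Fin k × Fin k // q.1 < q.2},
      ∑ n ∈ (Icc 1 N).filter (Cl (β q.1.2 - β q.1.1) ε), 1 / (n : ℝ) <
        c / (M * ((k : ℝ) ^ 2 + 1)) * Real.log N := by
    rw [eventually_all]
    intro q
    have h1 := hε1 q
    unfold UpPos at h1
    push Not at h1
    exact h1 _ (by positivity)
  have hlogN : Tendsto (fun N : ℕ => Real.log N) atTop atTop :=
    Real.tendsto_log_atTop.comp tendsto_natCast_atTop_atTop
  have hlit : ∀ᶠ N : ℕ in atTop, 2 * C * Real.log N + 2 ≤ (N : ℝ) ^ ((1 + t) / 2) := by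
    have h2 := (isLittleO_log_rpow_atTop (show (0 : ℝ) < (1 + t) / 2 by linarith)).def
      (show (0 : ℝ) < 1 / (2 * C + 2) by positivity)
    have h3 := tendsto_natCast_atTop_atTop (R := ℝ) |>.eventually h2
    filter_upwards [h3, hlogN.eventually_ge_atTop 1, eventually_ge_atTop 1] with n hn hl hn1
    have hn1' : (1 : ℝ) ≤ n := by exact_mod_cast hn1
    rw [Real.norm_of_nonneg (Real.log_nonneg hn1'), Real.norm_of_nonneg (by positivity)] at hn
    have h4 := mul_le_mul_of_nonneg_left hn (show (0 : ℝ) ≤ 2 * C + 2 by positivity)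
    have h5 : (2 * C + 2) * (1 / (2 * C + 2) * (n : ℝ) ^ ((1 + t) / 2)) =
        (n : ℝ) ^ ((1 + t) / 2) := by field_simp
    rw [h5] at h4
    linarith
  obtain ⟨N, hNs, hNX, hNnear, hNlit, hN1, hNlog⟩ := (hsmall.and
    (hU ((tendsto_natCast_atTop_atTop.eventually_ge_atTop X0).and
    ((near_facts C t (by linarith) ht2 ht1).and (hlit.and ((eventually_ge_atTop 1).and
    (hlogN.eventually_ge_atTop 1))))))).exists
  set L := Real.log N with hL
  have hL0 : 0 < L := by linarith
  have hmain := hx N hNX β hC1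
  set G := (Ioc ⌊(N : ℝ) ^ ((1 + t) / 2)⌋₊ ⌊(N : ℝ)⌋₊).filter
    (Hit k 2 (C * Real.log N) (η * Real.log N) (fun i => β i * Real.log N)) with hG
  -- the indices
  have hidx : ∀ n ∈ G, ∃ ν : ℕ, 1 ≤ ν ∧ |(pr1 ν : ℝ) - n| ≤ C * L ∧
      ν = Nat.primeCounting (pr1 ν) ∧
      ∃ i j : Fin k, i < j ∧ |gp ν - (β j - β i) * L| ≤ η * L := by
    intro n hn
    rw [hG, mem_filter] at hn
    have hnpow : (N : ℝ) ^ ((1 + t) / 2) < n := by
      have := hn.1
      rw [mem_Ioc] at this
      exact (Nat.floor_lt (by positivity)).1 this.1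
    refine hit_gap hL0 hC1 ?_ ?_ hn.2
    · intro i j hij
      have h1 := hs1 i j hij
      have h2 : η ≤ s := min_le_left _ _
      linarith
    · have : 0 ≤ C * L := by positivity
      nlinarith
  choose! f hf1 hf2 hf3 hf4 using hidx
  set T := univ.biUnion (fun q : {q : Fin k × Fin k // q.1 < q.2} =>
    (Icc 1 N).filter (Cl (β q.1.2 - β q.1.1) ε)) with hT
  have hcount := count_idx (C := C) (L := L) (K := 8 / L) (by positivity) G T f (by
    intro n hn
    have hn' := hn
    rw [hG, mem_filter] at hn'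
    obtain ⟨a1, a2, a3, a4⟩ := hNnear n (f n) hn'.1 (hf1 n hn) (hf3 n hn) (hf2 n hn)
    refine ⟨?_, hf2 n hn, ?_⟩
    · obtain ⟨i, j, hij, hgap⟩ := hf4 n hn
      rw [hT, mem_biUnion]
      refine ⟨⟨(i, j), hij⟩, mem_univ _, ?_⟩
      rw [mem_filter, mem_Icc]
      refine ⟨⟨hf1 n hn, a1⟩, ?_⟩
      unfold Cl
      have hlν : 0 < Real.log (f n) := by
        have : 0 < t * L := by positivity
        linarith
      rw [abs_le] at hgap
      have hd0 : η ≤ β j - β i := by
        have h1 := hs1 i j hij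
        have h2 : η ≤ s := min_le_left _ _
        linarith
      have hdC := hd i j
      rw [abs_lt]
      constructor
      · -- lower bound
        have h1 : (β j - β i - η) ≤ gp (f n) / Real.log (f n) := by
          rw [le_div_iff₀ hlν]
          calc (β j - β i - η) * Real.log (f n) ≤ (β j - β i - η) * L :=
                mul_le_mul_of_nonneg_left a3 (by linarith)
            _ ≤ gp (f n) := by linarith
        linarith
      · have h1 : gp (f n) / Real.log (f n) ≤ β j - β i + η + ε / 4 := by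
          rw [div_le_iff₀ hlν]
          have h2 : gp (f n) ≤ (β j - β i + η) * L := by linarith
          have h3 : (β j - β i + η) * L ≤ (β j - β i + η + ε / 4) * (t * L) := by
            have h4 : β j - β i + η ≤ (β j - β i + η + ε / 4) * t := by
              rw [ht, mul_div_assoc', le_div_iff₀ (by positivity)]
              have hε4 : ε ≤ 1 := min_le_right _ _
              have h5 : β j - β i + η ≤ 2 * C + 1 := by linarith
              nlinarith
            calc (β j - β i + η) * L ≤ ((β j - β i + η + ε / 4) * t) * L :=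
                  mul_le_mul_of_nonneg_right h4 hL0.le
              _ = _ := by ring
          have h6 : (β j - β i + η + ε / 4) * (t * L) ≤
              (β j - β i + η + ε / 4) * Real.log (f n) :=
            mul_le_mul_of_nonneg_left a2 (by linarith)
          linarith
        linarith
    · calc 1 / (n : ℝ) ≤ 8 / (f n * L) := a4
        _ = 8 / L * (1 / (f n : ℝ)) := by
            have : (0 : ℝ) < f n := by exact_mod_cast (hf1 n hn)
            field_simp) (by positivity)
  have hTsum : ∑ ν ∈ T, 1 / (ν : ℝ) ≤ (k : ℝ) ^ 2 * (c / (M * ((k : ℝ) ^ 2 + 1)) * L) := by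
    calc ∑ ν ∈ T, 1 / (ν : ℝ) ≤ ∑ q : {q : Fin k × Fin k // q.1 < q.2},
          ∑ n ∈ (Icc 1 N).filter (Cl (β q.1.2 - β q.1.1) ε), 1 / (n : ℝ) := by
          rw [hT]
          exact sum_biUnion_le _ _ _ (fun _ => by positivity)
      _ ≤ ∑ q : {q : Fin k × Fin k // q.1 < q.2}, c / (M * ((k : ℝ) ^ 2 + 1)) * L :=
          sum_le_sum fun q _ => (hNs q).le
      _ = (Fintype.card {q : Fin k × Fin k // q.1 < q.2} : ℝ) *
          (c / (M * ((k : ℝ) ^ 2 + 1)) * L) := by
          rw [sum_const, nsmul_eq_mul, card_univ]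
      _ ≤ _ := by
          apply mul_le_mul_of_nonneg_right _ (by positivity)
          have h1 : Fintype.card {q : Fin k × Fin k // q.1 < q.2} ≤
              Fintype.card (Fin k × Fin k) := Fintype.card_subtype_le _
          rw [Fintype.card_prod, Fintype.card_fin] at h1
          have h2 : (Fintype.card {q : Fin k × Fin k // q.1 < q.2} : ℝ) ≤ (k * k : ℕ) := by
            exact_mod_cast h1
          push_cast at h2
          nlinarith
  have hfin : c * L ≤ (2 * (C * L) + 1) * (8 / L) *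
      ((k : ℝ) ^ 2 * (c / (M * ((k : ℝ) ^ 2 + 1)) * L)) := by
    refine hmain.trans (hcount.trans ?_)
    exact mul_le_mul_of_nonneg_left hTsum (by positivity)
  have hfin2 : (2 * (C * L) + 1) * (8 / L) ≤ M := by
    rw [mul_div_assoc', div_le_iff₀ hL0, hM]
    nlinarith
  have hfin3 : c * L ≤ M * ((k : ℝ) ^ 2 * (c / (M * ((k : ℝ) ^ 2 + 1)) * L)) :=
    hfin.trans (mul_le_mul_of_nonneg_right hfin2 (by positivity))
  have hfin4 : M * ((k : ℝ) ^ 2 * (c / (M * ((k : ℝ) ^ 2 + 1)) * L)) =
      c * L * ((k : ℝ) ^ 2 / ((k : ℝ) ^ 2 + 1)) := by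
    field_simp
  rw [hfin4] at hfin3
  have hfin5 : (k : ℝ) ^ 2 / ((k : ℝ) ^ 2 + 1) < 1 := by
    rw [div_lt_one (by positivity)]
    linarith
  have hcL : 0 < c * L := by positivity
  nlinarith

end Pool.Agent.Helper89.LG2
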