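import Pool.Agent.Helper89.LG2.Defs

set_option autoImplicit false

/-!
Consecutive primes and their indices; a hit gives two consecutive primes.
-/

open Finset Filter

namespace Pool.Agent.Helper89.LG2

/-- The `ν`-th prime, `p_1 = 2`. -/
noncomputable def pr1 (ν : ℕ) : ℕ := Nat.nth Nat.Prime (ν - 1)

/-- The gap after the `ν`-th prime. -/
noncomputable def gp (ν : ℕ) : ℝ :=
  ((Nat.nth Nat.Prime ν : ℕ) : ℝ) - ((Nat.nth Nat.Prime (ν - 1) : ℕ) : ℝ)

/-- Consecutive primes have consecutive indices. -/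
theorem idx {p p' : ℕ} (hp : p.Prime) (hp' : p'.Prime) (hlt : p < p')
    (hno : ∀ q : ℕ, q.Prime → p < q → p' ≤ q) :
    ∃ ν : ℕ, 1 ≤ ν ∧ Nat.nth Nat.Prime (ν - 1) = p ∧ Nat.nth Nat.Prime ν = p' ∧
      ν = Nat.primeCounting p := by
  refine ⟨Nat.count Nat.Prime p + 1, by omega, ?_, ?_, ?_⟩
  · rw [Nat.add_sub_cancel]
    exact Nat.nth_count hp
  · apply le_antisymm
    · have h1 : Nat.count Nat.Prime p + 1 ≤ Nat.count Nat.Prime p' := by
        have h2 : Nat.count Nat.Prime (p + 1) = Nat.count Nat.Prime p + 1 := by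
          rw [Nat.count_succ, if_pos hp]
        rw [← h2]
        exact Nat.count_monotone _ hlt
      calc Nat.nth Nat.Prime (Nat.count Nat.Prime p + 1) ≤
          Nat.nth Nat.Prime (Nat.count Nat.Prime p') :=
            (Nat.nth_strictMono Nat.infinite_setOfPred_prime).monotone h1
        _ = p' := Nat.nth_count hp'
    · apply hno
      · exact Nat.prime_nth_prime _
      · calc p = Nat.nth Nat.Prime (Nat.count Nat.Prime p) := (Nat.nth_count hp).symm
          _ < _ := (Nat.nth_strictMono Nat.infinite_setOfPred_prime) (Nat.lt_succ_self _)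
  · unfold Nat.primeCounting Nat.primeCounting'
    rw [Nat.count_succ, if_pos hp]

/-- A hit with at least two primes gives two consecutive primes. -/
theorem hit_gap {k : ℕ} {C η L : ℝ} (hL : 0 < L) {β : Fin k → ℝ}
    (hC : ∀ i, -C ≤ β i ∧ β i + η ≤ C) (hsp : ∀ i j, i < j → β i + η < β j)
    {n : ℕ} (hn : C * L + 2 ≤ n)
    (hh : Hit k 2 (C * L) (η * L) (fun i => β i * L) n) :
    ∃ ν : ℕ, 1 ≤ ν ∧ |(pr1 ν : ℝ) - n| ≤ C * L ∧ ν = Nat.primeCounting (pr1 ν) ∧
      ∃ i j : Fin k, i < j ∧ |gp ν - (β j - β i) * L| ≤ η * L := by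
  classical
  obtain ⟨h, hinj, hwin, hm, hall⟩ := hh
  set S := univ.filter (fun i => ((n : ℤ) + h i).natAbs.Prime) with hS
  have hhC : ∀ i, |(h i : ℝ)| ≤ C * L := by
    intro i
    obtain ⟨h1, h2⟩ := hwin i
    obtain ⟨h3, h4⟩ := hC i
    have h5 := mul_le_mul_of_nonneg_right h3 hL.le
    have h6 := mul_le_mul_of_nonneg_right h4 hL.le
    rw [abs_le]
    constructor <;> nlinarith
  have hpos : ∀ i, 0 < (n : ℤ) + h i := by
    intro i
    have h1 := (abs_le.1 (hhC i)).1
    have h2 : (0 : ℝ) < (n : ℝ) + h i := by linarith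
    exact_mod_cast h2
  -- the smallest prime
  have hne : S.Nonempty := by
    rw [← card_pos]
    omega
  obtain ⟨i, hiS, hi⟩ := exists_min_image S h hne
  have hne2 : (S.erase i).Nonempty := by
    rw [← card_pos, card_erase_of_mem hiS]
    omega
  obtain ⟨j, hjS, hj⟩ := exists_min_image (S.erase i) h hne2
  rw [mem_erase] at hjS
  have hij : h i < h j := lt_of_le_of_ne (hi j hjS.2) (fun hc => hjS.1 (hinj hc).symm)
  have hpi : ((n : ℤ) + h i).natAbs.Prime := by
    rw [hS, mem_filter] at hiS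
    exact hiS.2
  have hpj : ((n : ℤ) + h j).natAbs.Prime := by
    have := hjS.2
    rw [hS, mem_filter] at this
    exact this.2
  set p := ((n : ℤ) + h i).natAbs with hp
  set p' := ((n : ℤ) + h j).natAbs with hp'
  have hpe : (p : ℤ) = n + h i := by
    have := hpos i
    omega
  have hpe' : (p' : ℤ) = n + h j := by
    have := hpos j
    omega
  have hlt : p < p' := by omega
  have hno : ∀ q : ℕ, q.Prime → p < q → p' ≤ q := by
    intro q hq hpq
    by_contra hc
    push Not at hc
    have h1 : |(((q : ℤ) - n : ℤ) : ℝ)| ≤ C * L := by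
      have h2 : h i < (q : ℤ) - n := by omega
      have h3 : (q : ℤ) - n < h j := by omega
      have h2' : (h i : ℝ) < (((q : ℤ) - n : ℤ) : ℝ) := by exact_mod_cast h2
      have h3' : (((q : ℤ) - n : ℤ) : ℝ) < h j := by exact_mod_cast h3
      have h4 := (abs_le.1 (hhC i)).1
      have h5 := (abs_le.1 (hhC j)).2
      rw [abs_le]
      constructor <;> linarith
    obtain ⟨l, hl⟩ := hall _ h1 (by
      have : (n : ℤ) + ((q : ℤ) - n) = q := by ring
      rw [this]
      simpa using hq)
    have hql : (q : ℤ) = n + h l := by omega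
    have hlS : l ∈ S := by
      rw [hS, mem_filter]
      refine ⟨mem_univ _, ?_⟩
      rw [← hql]
      simpa using hq
    have hli : l ≠ i := by
      intro hc2
      rw [hc2] at hql
      omega
    have h6 := hj l (mem_erase.2 ⟨hli, hlS⟩)
    omega
  obtain ⟨ν, hν1, hν2, hν3, hν4⟩ := idx hpi hpj hlt hno
  have hpR : (p : ℝ) = n + h i := by exact_mod_cast hpe
  have hpR' : (p' : ℝ) = n + h j := by exact_mod_cast hpe'
  refine ⟨ν, hν1, ?_, ?_, i, j, ?_, ?_⟩
  · unfold pr1
    rw [hν2, hpR]
    have := hhC i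
    rwa [add_sub_cancel_left]
  · unfold pr1
    rw [hν2]
    exact hν4
  · by_contra hc
    push Not at hc
    rcases hc.lt_or_eq with hc | hc
    · have h1 := hsp j i hc
      have h2 := (hwin j).2
      have h3 := (hwin i).1
      have h4 := mul_lt_mul_of_pos_right h1 hL
      have h5 : (h i : ℝ) < h j := by exact_mod_cast hij
      nlinarith
    · rw [hc] at hij
      omega
  · unfold gp
    rw [hν2, hν3, hpR, hpR']
    obtain ⟨h1, h2⟩ := hwin i
    obtain ⟨h3, h4⟩ := hwin j
    rw [abs_le]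
    constructor <;> nlinarith

end Pool.Agent.Helper89.LG2
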