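import Pool.Agent.Helper89.LG2.Defs

set_option autoImplicit false

/-!
Sliding the interval over a cluster.
-/

open Finset

namespace Pool.Agent.Helper89.LG2

/-- The end of the interval that starts at `t`. -/
noncomputable def En (lam : ℝ) (t : ℕ) : ℕ := ⌊(t : ℝ) + lam * Real.log t⌋₊

theorem En_mono {lam : ℝ} (hlam : 0 ≤ lam) {s t : ℕ} (hs : 1 ≤ s) (hst : s ≤ t) :
    En lam s ≤ En lam t := by
  unfold En
  apply Nat.floor_mono
  have h1 : (s : ℝ) ≤ t := by exact_mod_cast hst
  have h2 : (0 : ℝ) < s := by exact_mod_cast hs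
  have h3 : Real.log s ≤ Real.log t := Real.log_le_log h2 h1
  have h4 := mul_le_mul_of_nonneg_left h3 hlam
  linarith

theorem En_step {lam : ℝ} (hlam : 0 ≤ lam) {t : ℕ} (ht : 1 ≤ t) (hl : lam ≤ t) :
    En lam (t + 1) ≤ En lam t + 2 := by
  unfold En
  have h0 : (0 : ℝ) < t := by exact_mod_cast ht
  have h1 : Real.log ((t + 1 : ℕ) : ℝ) ≤ Real.log t + 1 / t := by
    have h2 : (((t + 1 : ℕ) : ℝ)) = t * (1 + 1 / t) := by
      push_cast
      field_simp
    rw [h2, Real.log_mul h0.ne' (by positivity)]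
    have h3 := Real.log_le_sub_one_of_pos (x := 1 + 1 / (t : ℝ)) (by positivity)
    linarith
  have h2 : lam * (1 / t) ≤ 1 := by
    rw [mul_one_div, div_le_one h0]
    exact hl
  have h3 : lam * Real.log ((t + 1 : ℕ) : ℝ) ≤ lam * Real.log t + 1 := by
    have := mul_le_mul_of_nonneg_left h1 hlam
    linarith
  have h4 : (((t + 1 : ℕ) : ℝ)) + lam * Real.log ((t + 1 : ℕ) : ℝ) ≤
      ((t : ℝ) + lam * Real.log t) + 2 := by
    push_cast at h3 ⊢
    linarith
  have h5 : 0 ≤ (t : ℝ) + lam * Real.log t := by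
    have := Real.log_natCast_nonneg t
    positivity
  calc ⌊(((t + 1 : ℕ) : ℝ)) + lam * Real.log ((t + 1 : ℕ) : ℝ)⌋₊ ≤
      ⌊((t : ℝ) + lam * Real.log t) + (2 : ℕ)⌋₊ := by
        apply Nat.floor_mono
        push_cast at h4 ⊢
        linarith
    _ = _ := Nat.floor_add_natCast h5 2

/-- Many `t` below `n` whose interval ends in a given range `[u, u + w)`. -/
theorem many_t {lam : ℝ} (hlam : 0 ≤ lam) {a n u w : ℕ} (ha : 1 ≤ a) (hal : lam ≤ a)
    (h1 : En lam a < u) (h2 : u + w ≤ En lam (n - 1)) (han : a ≤ n - 1) :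
    w / 2 ≤ ((Icc a (n - 1)).filter (fun t => u ≤ En lam t ∧ En lam t < u + w)).card := by
  classical
  have hex : ∃ t, a ≤ t ∧ u ≤ En lam t := ⟨n - 1, han, by omega⟩
  set t1 := Nat.find hex with ht1
  obtain ⟨ha1, hu1⟩ := Nat.find_spec hex
  rw [← ht1] at ha1 hu1
  have hne : t1 ≠ a := by
    intro hc
    rw [hc] at hu1
    omega
  have hlt : a < t1 := lt_of_le_of_ne ha1 (Ne.symm hne)
  have hprev : En lam (t1 - 1) < u := by
    by_contra hc
    push Not at hc
    have := Nat.find_min' hex (m := t1 - 1) ⟨by omega, hc⟩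
    omega
  have hal' : ∀ t : ℕ, a ≤ t → lam ≤ t := fun t ht => hal.trans (by exact_mod_cast ht)
  have hb : ∀ j : ℕ, En lam (t1 + j) ≤ u + 1 + 2 * j := by
    intro j
    induction j with
    | zero =>
      have h3 := En_step hlam (t := t1 - 1) (by omega) (hal' _ (by omega))
      have h4 : t1 - 1 + 1 = t1 := by omega
      rw [h4] at h3
      simp only [Nat.add_zero]
      omega
    | succ j ih =>
      have h3 := En_step hlam (t := t1 + j) (by omega) (hal' _ (by omega))
      have h4 : t1 + (j + 1) = t1 + j + 1 := by omega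
      rw [h4]
      omega
  have hsub : (range (w / 2)).image (fun j => t1 + j) ⊆
      (Icc a (n - 1)).filter (fun t => u ≤ En lam t ∧ En lam t < u + w) := by
    intro t ht
    rw [mem_image] at ht
    obtain ⟨j, hj, rfl⟩ := ht
    rw [mem_range] at hj
    have h3 := hb j
    have h4 : En lam (t1 + j) < u + w := by omega
    have h5 : u ≤ En lam (t1 + j) := hu1.trans (En_mono hlam (by omega) (by omega))
    rw [mem_filter, mem_Icc]
    refine ⟨⟨by omega, ?_⟩, h5, h4⟩
    by_contra hc
    push Not at hc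
    have h6 := En_mono hlam (s := n - 1) (t := t1 + j) (by omega) (by omega)
    omega
  calc w / 2 = ((range (w / 2)).image (fun j => t1 + j)).card := by
        rw [card_image_of_injective _ (fun a b h => by simpa using h), card_range]
    _ ≤ _ := card_le_card hsub

end Pool.Agent.Helper89.LG2
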