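import Pool.Agent.Helper89.LG2.Idx
import Pool.Agent.Helper89.LG2.Exact
import Pool.Agent.Helper30.Gap.Final

set_option autoImplicit false

/-!
Size of the indices of the primes near `n`.
-/

open Finset Filter

namespace Pool.Agent.Helper89.LG2

theorem pi_upper : ∀ᶠ p : ℕ in atTop, (Nat.primeCounting p : ℝ) * Real.log p ≤ 2 * p := by
  have h1 := Chebyshev.eventually_primeCounting_le (ε := 1 / 2) (by norm_num)
  have h2 := tendsto_natCast_atTop_atTop (R := ℝ) |>.eventually h1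
  filter_upwards [h2, eventually_ge_atTop 3] with p hp hp3
  rw [Nat.floor_natCast] at hp
  have hp0 : (1 : ℝ) < p := by
    have : (3 : ℝ) ≤ p := by exact_mod_cast hp3
    linarith
  have hlog : 0 < Real.log p := Real.log_pos hp0
  rw [le_div_iff₀ hlog] at hp
  have h4 : Real.log 4 = 2 * Real.log 2 := by
    rw [show (4 : ℝ) = 2 ^ 2 by norm_num, Real.log_pow]
    norm_num
  have h5 := Real.log_two_lt_d9
  nlinarith

theorem near_facts (C t : ℝ) (hC : 0 < C) (ht : 1 / 2 < t) (ht1 : t < 1) :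
    ∀ᶠ N : ℕ in atTop, ∀ n ν : ℕ, n ∈ Ioc ⌊(N : ℝ) ^ ((1 + t) / 2)⌋₊ ⌊(N : ℝ)⌋₊ → 1 ≤ ν →
      ν = Nat.primeCounting (pr1 ν) → |(pr1 ν : ℝ) - n| ≤ C * Real.log N →
      ν ≤ N ∧ t * Real.log N ≤ Real.log ν ∧ Real.log ν ≤ Real.log N ∧
        1 / (n : ℝ) ≤ 8 / (ν * Real.log N) := by
  obtain ⟨q0, hq0⟩ := eventually_atTop.1 pi_upper
  obtain ⟨ν0, hν0⟩ := eventually_atTop.1
    (Pool.Agent.Helper30.Gap.log_p_bounds ((1 - t) / 8) (by linarith))
  obtain ⟨p0, hp0⟩ := eventually_atTop.1 (Nat.tendsto_primeCounting.eventually_ge_atTop ν0)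
  have hlogN : Tendsto (fun N : ℕ => Real.log N) atTop atTop :=
    Real.tendsto_log_atTop.comp tendsto_natCast_atTop_atTop
  have hlit : ∀ᶠ N : ℕ in atTop, 2 * C * Real.log N ≤ (N : ℝ) ^ ((1 + t) / 2) := by
    have h2 := (isLittleO_log_rpow_atTop (show (0 : ℝ) < (1 + t) / 2 by linarith)).def
      (show (0 : ℝ) < 1 / (2 * C) by positivity)
    have h3 := tendsto_natCast_atTop_atTop (R := ℝ) |>.eventually h2
    filter_upwards [h3, eventually_ge_atTop 1] with n hn hn1
    have hn1' : (1 : ℝ) ≤ n := by exact_mod_cast hn1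
    rw [Real.norm_of_nonneg (Real.log_nonneg hn1'), Real.norm_of_nonneg (by positivity)] at hn
    have := mul_le_mul_of_nonneg_left hn (show (0 : ℝ) ≤ 2 * C by positivity)
    calc 2 * C * Real.log n ≤ 2 * C * (1 / (2 * C) * (n : ℝ) ^ ((1 + t) / 2)) := this
      _ = _ := by field_simp
  have hpow : Tendsto (fun N : ℕ => (N : ℝ) ^ ((1 + t) / 2)) atTop atTop :=
    (tendsto_rpow_atTop (show (0 : ℝ) < (1 + t) / 2 by linarith)).comp
      tendsto_natCast_atTop_atTop
  filter_upwards [hlit, hpow.eventually_ge_atTop (2 * (q0 : ℝ)),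
    hpow.eventually_ge_atTop (2 * (p0 : ℝ)), hlogN.eventually_ge_atTop (8 / (1 - t)),
    hlogN.eventually_ge_atTop 8, eventually_ge_atTop 1] with N hN1 hN2 hN3 hN4 hN5 hN6
  intro n ν hn hν hπ hnear
  obtain ⟨hnN, hn1, hn2, hn3⟩ := mem_range_log hN6 hn
  set L := Real.log N with hL
  set p := pr1 ν with hp
  have hn0 : (0 : ℝ) < n := by exact_mod_cast hn1
  have hN0 : (0 : ℝ) < N := by exact_mod_cast hN6
  have hnpow : (N : ℝ) ^ ((1 + t) / 2) < n := by
    rw [mem_Ioc] at hn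
    exact (Nat.floor_lt (by positivity)).1 hn.1
  rw [abs_le] at hnear
  have hpn1 : (n : ℝ) / 2 ≤ p := by linarith
  have hpn2 : (p : ℝ) ≤ 3 / 2 * n := by linarith
  have hq : q0 ≤ p := by
    have : (q0 : ℝ) ≤ p := by linarith
    exact_mod_cast this
  have hpp : p0 ≤ p := by
    have : (p0 : ℝ) ≤ p := by linarith
    exact_mod_cast this
  have hp1 := hq0 p hq
  have hν2 : ν0 ≤ ν := by
    rw [hπ]
    exact hp0 p hpp
  obtain ⟨hl1, hl2⟩ := hν0 ν hν2
  have hpR : (0 : ℝ) < p := by linarith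
  have hlogp : (1 + t) / 2 * L - 1 ≤ Real.log p := by
    have h1 : Real.log n - Real.log 2 ≤ Real.log p := by
      rw [← Real.log_div (by positivity) (by norm_num)]
      exact Real.log_le_log (by positivity) hpn1
    have h2 := Real.log_two_lt_d9
    linarith
  have hlogp2 : L / 2 ≤ Real.log p := by nlinarith
  have hνR : (0 : ℝ) < ν := by exact_mod_cast hν
  rw [← hπ] at hp1
  have hνN : (ν : ℝ) ≤ N := by
    have h1 : (ν : ℝ) * 4 ≤ 2 * p := by
      have : (ν : ℝ) * 4 ≤ ν * Real.log p := mul_le_mul_of_nonneg_left (by linarith) hνR.le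
      linarith
    have h2 : (n : ℝ) ≤ N := by exact_mod_cast hnN
    linarith
  refine ⟨by exact_mod_cast hνN, ?_, Real.log_le_log hνR hνN, ?_⟩
  · have h1 : Real.log p ≤ (1 + (1 - t) / 8) * Real.log ν := hl2
    have h2 : t * (1 + (1 - t) / 8) * L ≤ Real.log p := by
      have h3 : 8 ≤ L * (1 - t) := by
        rw [div_le_iff₀ (by linarith)] at hN4
        exact hN4
      nlinarith
    have h3 : (1 + (1 - t) / 8) * (t * L) ≤ (1 + (1 - t) / 8) * Real.log ν := by
      calc (1 + (1 - t) / 8) * (t * L) = t * (1 + (1 - t) / 8) * L := by ring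
        _ ≤ _ := h2.trans h1
    exact le_of_mul_le_mul_left h3 (by linarith)
  · have hL0 : 0 < L := by linarith
    rw [div_le_div_iff₀ hn0 (by positivity)]
    have h1 : (ν : ℝ) * (L / 2) ≤ ν * Real.log p := mul_le_mul_of_nonneg_left hlogp2 hνR.le
    nlinarith

end Pool.Agent.Helper89.LG2
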