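import Pool.Agent.Helper89.LG2.Local

set_option autoImplicit false

/-!
A cluster gives many intervals with exactly `m` primes.
-/

open Finset

namespace Pool.Agent.Helper89.LG2

/-- The facts on the primes near `n` that are used. -/
structure Clu (m a n e w : ℕ) (D : ℝ) : Prop where
  /-- the primes between `a` and `e` are at least `n` -/
  low : ∀ q : ℕ, q.Prime → a ≤ q → q ≤ e → n ≤ q
  /-- they are separated -/
  sep : ∀ q q' : ℕ, q.Prime → q'.Prime → n ≤ q → q < q' → q' ≤ e → q + w ≤ q'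
  /-- there are at least `m` of them close to `n` -/
  many : m ≤ ((Icc n (n + ⌊D⌋₊)).filter Nat.Prime).card

/-- The target for the end point. -/
theorem target {m a n e w : ℕ} {D : ℝ} (h : Clu m a n e w D) (hn : w + 1 ≤ n)
    (he : n + ⌊D⌋₊ + w ≤ e) :
    ∃ u : ℕ, n ≤ u + w ∧ u ≤ n + ⌊D⌋₊ ∧ ∀ t E : ℕ, a ≤ t → t < n → u ≤ E → E < u + w →
      ((Ioc t E).filter Nat.Prime).card = m := by
  classical
  rcases Nat.eq_zero_or_pos m with hm | hm
  · subst hm
    refine ⟨n - w, by omega, by omega, ?_⟩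
    intro t E hat htn huE hE
    rw [card_eq_zero, filter_eq_empty_iff]
    intro q hq hp
    rw [mem_Ioc] at hq
    have := h.low q hp (by omega) (by omega)
    omega
  · set A : ℕ → ℕ := fun y => ((Icc n y).filter Nat.Prime).card with hA
    have hex : ∃ y, m ≤ A y := ⟨_, h.many⟩
    set u := Nat.find hex with hu
    have hu1 : m ≤ A u := Nat.find_spec hex
    have hu2 : u ≤ n + ⌊D⌋₊ := Nat.find_min' hex h.many
    have hun : n ≤ u := by
      by_contra hc
      push Not at hc
      have : A u = 0 := by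
        rw [hA]
        simp only [card_eq_zero]
        rw [filter_eq_empty_iff]
        intro q hq
        rw [mem_Icc] at hq
        omega
      omega
    have hlt : A (u - 1) < m := by
      by_contra hc
      push Not at hc
      have := Nat.find_min' hex (m := u - 1) hc
      omega
    have hIcc : Icc n u = insert u (Icc n (u - 1)) := by
      ext q
      rw [mem_insert, mem_Icc, mem_Icc]
      omega
    have hup : u.Prime := by
      by_contra hc
      have : A u = A (u - 1) := by
        rw [hA]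
        simp only
        rw [hIcc, filter_insert, if_neg hc]
      omega
    have hAu : A u = m := by
      have : A u ≤ A (u - 1) + 1 := by
        rw [hA]
        simp only
        rw [hIcc, filter_insert, if_pos hup]
        exact card_insert_le _ _
      omega
    refine ⟨u, by omega, hu2, ?_⟩
    intro t E hat htn huE hE
    rw [← hAu, hA]
    simp only
    congr 1
    ext q
    rw [mem_filter, mem_filter, mem_Ioc, mem_Icc]
    constructor
    · rintro ⟨⟨h1, h2⟩, hp⟩
      have h3 := h.low q hp (by omega) (by omega)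
      refine ⟨⟨h3, ?_⟩, hp⟩
      by_contra hc
      push Not at hc
      have := h.sep u q hup hp hun hc (by omega)
      omega
    · rintro ⟨⟨h1, h2⟩, hp⟩
      exact ⟨⟨by omega, by omega⟩, hp⟩

/-- The facts from a hit. -/
theorem clu_of_hit {k m : ℕ} {lam η L : ℝ} (hη0 : 0 < η) (hη1 : 16 * k * η ≤ lam)
    (hL : 0 < L) {n : ℕ}
    (hh : Hit k m ((lam + 1) * L) (η * L) (fun i => 2 * (i : ℕ) * η * L) n) :
    Clu m (n - ⌊(lam + 1) * L⌋₊) n (n + ⌊(lam + 1) * L⌋₊) ⌊η * L⌋₊ (lam * L / 8) := by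
  classical
  obtain ⟨h, hinj, hwin, hm, hall⟩ := hh
  have hlam : 0 ≤ lam := by
    have : (0 : ℝ) ≤ 16 * k * η := by positivity
    linarith
  have hC : 0 ≤ (lam + 1) * L := by positivity
  have hηL : 0 < η * L := by positivity
  -- a prime in the range is one of the `n + h i`
  have key : ∀ q : ℕ, q.Prime → n - ⌊(lam + 1) * L⌋₊ ≤ q → q ≤ n + ⌊(lam + 1) * L⌋₊ →
      ∃ i : Fin k, (q : ℤ) = n + h i := by
    intro q hq h1 h2
    have h3 : |(((q : ℤ) - n : ℤ) : ℝ)| ≤ (lam + 1) * L := by
      have h4 : (⌊(lam + 1) * L⌋₊ : ℝ) ≤ (lam + 1) * L := Nat.floor_le hC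
      push_cast
      rw [abs_le]
      constructor
      · have h5 : (n : ℝ) ≤ q + ⌊(lam + 1) * L⌋₊ := by
          have : n ≤ q + ⌊(lam + 1) * L⌋₊ := by omega
          exact_mod_cast this
        linarith
      · have h5 : (q : ℝ) ≤ n + ⌊(lam + 1) * L⌋₊ := by exact_mod_cast h2
        linarith
    obtain ⟨i, hi⟩ := hall _ h3 (by
      have : (n : ℤ) + ((q : ℤ) - n) = q := by ring
      rw [this]
      simpa using hq)
    exact ⟨i, by linarith⟩
  have hup : ∀ i : Fin k, (h i : ℝ) ≤ lam * L / 8 := by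
    intro i
    have h1 := (hwin i).2
    have h2 : ((i : ℕ) : ℝ) + 1 ≤ k := by
      have := i.2
      exact_mod_cast this
    have h3 : 2 * ((i : ℕ) : ℝ) * η * L + η * L ≤ 2 * k * η * L := by
      have := mul_le_mul_of_nonneg_right h2 hηL.le
      nlinarith
    have h4 : 2 * (k : ℝ) * η * L ≤ lam * L / 8 := by
      have := mul_le_mul_of_nonneg_right hη1 hL.le
      linarith
    linarith
  have hlow : ∀ i : Fin k, 0 ≤ h i := by
    intro i
    have h1 := (hwin i).1
    have h2 : (0 : ℝ) ≤ 2 * ((i : ℕ) : ℝ) * η * L := by positivity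
    have h3 : (0 : ℝ) ≤ h i := h2.trans h1
    exact_mod_cast h3
  refine ⟨?_, ?_, ?_⟩
  · intro q hq h1 h2
    obtain ⟨i, hi⟩ := key q hq h1 h2
    have := hlow i
    omega
  · intro q q' hq hq' h1 h2 h3
    obtain ⟨i, hi⟩ := key q hq (by omega) (by omega)
    obtain ⟨j, hj⟩ := key q' hq' (by omega) h3
    have hij : h i < h j := by omega
    have hwi := hwin i
    have hwj := hwin j
    have hij' : (h i : ℝ) < h j := by exact_mod_cast hij
    have hlt : (i : ℕ) < j := by
      by_contra hc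
      push Not at hc
      rcases Nat.lt_or_eq_of_le hc with hc | hc
      · have h4 : ((j : ℕ) : ℝ) + 1 ≤ (i : ℕ) := by exact_mod_cast hc
        have h5 := mul_le_mul_of_nonneg_right h4 hηL.le
        nlinarith
      · have : i = j := Fin.ext hc.symm
        rw [this] at hij
        omega
    have h4 : ((i : ℕ) : ℝ) + 1 ≤ (j : ℕ) := by exact_mod_cast hlt
    have h5 := mul_le_mul_of_nonneg_right h4 hηL.le
    have h6 : (h i : ℝ) + η * L ≤ h j := by nlinarith
    have h7 : (⌊η * L⌋₊ : ℝ) ≤ η * L := Nat.floor_le hηL.le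
    have h8 : ((q : ℝ)) = n + h i := by exact_mod_cast hi
    have h9 : ((q' : ℝ)) = n + h j := by exact_mod_cast hj
    have h10 : (q : ℝ) + ⌊η * L⌋₊ ≤ q' := by
      rw [h8, h9]
      linarith
    exact_mod_cast h10
  · refine hm.trans ?_
    have hinj2 : ∀ i j : Fin k, ((n : ℤ) + h i).natAbs = ((n : ℤ) + h j).natAbs → i = j := by
      intro i j hij
      apply hinj
      have h1 := hlow i
      have h2 := hlow j
      omega
    calc (univ.filter (fun i => ((n : ℤ) + h i).natAbs.Prime)).card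
        = ((univ.filter (fun i => ((n : ℤ) + h i).natAbs.Prime)).image
            (fun i => ((n : ℤ) + h i).natAbs)).card := by
          rw [card_image_of_injective _ hinj2]
      _ ≤ _ := by
          apply card_le_card
          intro q hq
          rw [mem_image] at hq
          obtain ⟨i, hi, rfl⟩ := hq
          rw [mem_filter] at hi
          rw [mem_filter, mem_Icc]
          have h1 := hlow i
          have h2 := hup i
          refine ⟨⟨by omega, ?_⟩, hi.2⟩
          have h3 : (h i).toNat ≤ ⌊lam * L / 8⌋₊ := by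
            rw [Nat.le_floor_iff (by positivity)]
            have h4 : (((h i).toNat : ℤ)) = h i := Int.toNat_of_nonneg h1
            have h5 : (((h i).toNat : ℕ) : ℝ) = (h i : ℝ) := by exact_mod_cast h4
            rw [h5]
            exact h2
          omega

/-- Sliding the interval. -/
theorem slide {k m : ℕ} {lam η L : ℝ} (hlam : 0 < lam) (hη0 : 0 < η) (hη1 : 16 * k * η ≤ lam)
    (hk : 0 < k) (hη2 : η ≤ 1 / 16) (hL8 : 8 ≤ L) (hL16 : 16 ≤ lam * L)
    {n : ℕ} (hn : (lam + 1) * L + lam + 2 ≤ n)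
    (hlog1 : Real.log n ≤ L) (hlog2 : 5 / 8 * L ≤ Real.log ((n - 1 : ℕ) : ℝ))
    (hh : Hit k m ((lam + 1) * L) (η * L) (fun i => 2 * (i : ℕ) * η * L) n) :
    (η * L - 3) / 2 ≤
      (((Icc (n - ⌊(lam + 1) * L⌋₊) (n - 1)).filter (fun t => pcount lam t = m)).card : ℝ) := by
  classical
  have hL : 0 < L := by linarith
  have hC : 0 ≤ (lam + 1) * L := by positivity
  have hηL : 0 < η * L := by positivity
  have hclu := clu_of_hit hη0 hη1 hL hh
  set a := n - ⌊(lam + 1) * L⌋₊ with ha
  set w := ⌊η * L⌋₊ with hw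
  have hfC : (⌊(lam + 1) * L⌋₊ : ℝ) ≤ (lam + 1) * L := Nat.floor_le hC
  have hfC2 : (lam + 1) * L < ⌊(lam + 1) * L⌋₊ + 1 := Nat.lt_floor_add_one _
  have hwle : (w : ℝ) ≤ η * L := Nat.floor_le hηL.le
  have hw2 : η * L < w + 1 := Nat.lt_floor_add_one _
  have hD : (⌊lam * L / 8⌋₊ : ℝ) ≤ lam * L / 8 := Nat.floor_le (by positivity)
  have hkη : 16 * η ≤ lam := by
    have : (1 : ℝ) ≤ k := by exact_mod_cast hk
    nlinarith
  have hηL2 : 16 * (η * L) ≤ lam * L := by
    have := mul_le_mul_of_nonneg_right hkη hL.le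
    linarith
  have hηL3 : η * L ≤ L / 16 := by
    have := mul_le_mul_of_nonneg_right hη2 hL.le
    linarith
  have hnR : (⌊(lam + 1) * L⌋₊ : ℝ) + lam + 2 ≤ n := by linarith
  have hnfl : ⌊(lam + 1) * L⌋₊ + 2 ≤ n := by
    have : (⌊(lam + 1) * L⌋₊ : ℝ) + 2 ≤ n := by linarith
    exact_mod_cast this
  have haR : (a : ℝ) = n - ⌊(lam + 1) * L⌋₊ := by
    rw [ha, Nat.cast_sub (by omega)]
  have ha1 : 1 ≤ a := by omega
  have hal : lam ≤ a := by
    rw [haR]
    linarith
  have hwn : w + 1 ≤ n := by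
    have : (w : ℝ) + 1 ≤ n := by nlinarith
    exact_mod_cast this
  have he : n + ⌊lam * L / 8⌋₊ + w ≤ n + ⌊(lam + 1) * L⌋₊ := by
    have h1 : (⌊lam * L / 8⌋₊ : ℝ) + w ≤ (lam + 1) * L - 1 := by nlinarith
    have h2 : (⌊lam * L / 8⌋₊ : ℝ) + w < ⌊(lam + 1) * L⌋₊ := by linarith
    have h3 : ⌊lam * L / 8⌋₊ + w < ⌊(lam + 1) * L⌋₊ := by exact_mod_cast h2
    omega
  obtain ⟨u, hu1, hu2, hu3⟩ := target hclu hwn he
  -- the first end point is too small
  have hEa : En lam a < u := by
    have h1 : (a : ℝ) + lam * Real.log a < u := by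
      have h2 : Real.log a ≤ L := by
        refine le_trans (Real.log_le_log (by exact_mod_cast ha1) ?_) hlog1
        rw [haR]
        have : (0 : ℝ) ≤ ⌊(lam + 1) * L⌋₊ := Nat.cast_nonneg _
        linarith
      have h3 : lam * Real.log a ≤ lam * L := mul_le_mul_of_nonneg_left h2 hlam.le
      have h4 : (n : ℝ) ≤ u + w := by exact_mod_cast hu1
      rw [haR] at *
      nlinarith
    unfold En
    have h5 : 0 ≤ (a : ℝ) + lam * Real.log a := by
      have := Real.log_natCast_nonneg a
      positivity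
    exact (Nat.floor_lt h5).2 h1
  -- the last end point is large enough
  have hEn : u + w ≤ En lam (n - 1) := by
    unfold En
    apply Nat.le_floor
    have h1 : (((n - 1 : ℕ) : ℝ)) = n - 1 := by
      rw [Nat.cast_sub (by omega)]
      simp
    have h2 : (u : ℝ) ≤ n + lam * L / 8 := by
      have : (u : ℝ) ≤ n + ⌊lam * L / 8⌋₊ := by exact_mod_cast hu2
      linarith
    have h3 : lam * (5 / 8 * L) ≤ lam * Real.log ((n - 1 : ℕ) : ℝ) :=
      mul_le_mul_of_nonneg_left hlog2 hlam.le
    push_cast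
    rw [h1] at h3 ⊢
    nlinarith
  have hf1 : 1 ≤ ⌊(lam + 1) * L⌋₊ := by
    apply Nat.le_floor
    push_cast
    nlinarith
  have hmany := many_t hlam.le ha1 hal hEa hEn (by omega)
  have hsub : (Icc a (n - 1)).filter (fun t => u ≤ En lam t ∧ En lam t < u + w) ⊆
      (Icc a (n - 1)).filter (fun t => pcount lam t = m) := by
    intro t ht
    rw [mem_filter, mem_Icc] at ht ⊢
    refine ⟨ht.1, ?_⟩
    exact hu3 t (En lam t) ht.1.1 (by omega) ht.2.1 ht.2.2
  have hfin := hmany.trans (card_le_card hsub)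
  have hfinR : ((w / 2 : ℕ) : ℝ) ≤
      (((Icc a (n - 1)).filter (fun t => pcount lam t = m)).card : ℝ) := by exact_mod_cast hfin
  have hw3 : (w : ℝ) ≤ 2 * ((w / 2 : ℕ) : ℝ) + 1 := by
    have : w ≤ 2 * (w / 2) + 1 := by omega
    exact_mod_cast this
  linarith

end Pool.Agent.Helper89.LG2
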