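import Pool.Agent.Helper89.LG2.Cover

set_option autoImplicit false

/-!
All sufficiently small nonnegative reals are growth points.
-/

open Finset Filter

namespace Pool.Agent.Helper89.LG2

theorem zero_interval {U : Filter ℕ} {k : ℕ} (h : ∀ β : Fin k → ℝ, StrictMono β →
    ∃ i j : Fin k, i < j ∧ Growth U (β j - β i)) :
    ∃ c : ℝ, 0 < c ∧ ∀ x : ℝ, 0 ≤ x → x ≤ c → Growth U x := by
  classical
  have hcl := growth_closed U
  by_contra hcon
  push Not at hcon
  -- arbitrarily small positive exceptional points with a neighbourhood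
  have h1 : ∀ ρ : ℝ, 0 < ρ → ∃ x r : ℝ, 0 < x ∧ x < ρ ∧ 0 < r ∧
      ∀ y : ℝ, |y - x| < r → ¬ Growth U y := by
    intro ρ hρ
    have h2 : ∃ x : ℝ, 0 < x ∧ x < ρ ∧ ¬ Growth U x := by
      by_contra hc
      push Not at hc
      obtain ⟨x, hx0, hxρ, hx⟩ := hcon (ρ / 2) (by positivity)
      rcases hx0.eq_or_lt with h3 | h3
      · apply hx
        rw [← h3]
        have h4 : (0 : ℝ) ∈ closure {c : ℝ | Growth U c} := by
          rw [Metric.mem_closure_iff]
          intro ε hε
          refine ⟨min (ε / 2) (ρ / 2), hc _ (by positivity) ?_, ?_⟩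
          · have := min_le_right (ε / 2) (ρ / 2)
            linarith
          · have h5 : 0 < min (ε / 2) (ρ / 2) := by positivity
            rw [Real.dist_eq, zero_sub, abs_neg, abs_of_pos h5]
            have := min_le_left (ε / 2) (ρ / 2)
            linarith
        rwa [hcl.closure_eq] at h4
      · exact hx (hc x h3 (by linarith))
    obtain ⟨x, hx0, hxρ, hx⟩ := h2
    have h3 : x ∈ {c : ℝ | Growth U c}ᶜ := hx
    obtain ⟨r, hr, hball⟩ := Metric.isOpen_iff.1 hcl.isOpen_compl x h3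
    refine ⟨x, r, hx0, hxρ, hr, ?_⟩
    intro y hy
    exact hball (by rw [Metric.mem_ball, Real.dist_eq]; exact hy)
  choose! X r hX0 hXρ hr hXr using h1
  -- the sequence of scales
  set ρ : ℕ → ℝ := fun n => Nat.rec 1 (fun _ t => min (X t) (r t)) n with hρdef
  have hρ0 : ρ 0 = 1 := rfl
  have hρs : ∀ n, ρ (n + 1) = min (X (ρ n)) (r (ρ n)) := fun n => rfl
  have hρpos : ∀ n, 0 < ρ n := by
    intro n
    induction n with
    | zero => rw [hρ0]; norm_num
    | succ n ih =>
      rw [hρs]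
      exact lt_min (hX0 _ ih) (hr _ ih)
  have hρanti : Antitone ρ := by
    apply antitone_nat_of_succ_le
    intro n
    rw [hρs]
    exact (min_le_left _ _).trans (hXρ _ (hρpos n)).le
  set a : ℕ → ℝ := fun n => X (ρ n) with ha
  have hlt : ∀ p q : ℕ, p < q → a q < a p ∧ a q < r (ρ p) := by
    intro p q hpq
    have h2 : a q < ρ q := hXρ _ (hρpos q)
    have h3 : ρ q ≤ ρ (p + 1) := hρanti hpq
    have h4 : ρ (p + 1) ≤ X (ρ p) := by
      rw [hρs]
      exact min_le_left _ _
    have h5 : ρ (p + 1) ≤ r (ρ p) := by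
      rw [hρs]
      exact min_le_right _ _
    exact ⟨by rw [ha]; simp only; rw [ha] at h2; simp only at h2; linarith, by linarith⟩
  obtain ⟨i, j, hij, hg⟩ := h (fun i => a (k - 1 - (i : ℕ))) (by
    intro i j hij
    have h2 : (i : ℕ) < j := hij
    have h3 := j.2
    exact (hlt _ _ (by omega)).1)
  have h2 : (i : ℕ) < j := hij
  have h3 := j.2
  have h4 := hlt (k - 1 - (j : ℕ)) (k - 1 - (i : ℕ)) (by omega)
  refine hXr (ρ (k - 1 - (j : ℕ))) (hρpos _) _ ?_ hg
  have h5 : 0 < a (k - 1 - (i : ℕ)) := hX0 _ (hρpos _)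
  have h6 : a (k - 1 - (j : ℕ)) - a (k - 1 - (i : ℕ)) - X (ρ (k - 1 - (j : ℕ))) =
      - a (k - 1 - (i : ℕ)) := by
    rw [ha]
    ring
  rw [h6, abs_neg, abs_of_pos h5]
  exact h4.2

end Pool.Agent.Helper89.LG2
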